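import Pool.Agent.Lib.MP_5c3535_an.Basic

open scoped ENNReal Matrix.Norms.L2Operator
open Filter Topology

noncomputable section

namespace Pool.Agent.Lib.MP_5c3535_an

lemma BFG_mono {F F' : Finset ℕ} {G G' : Finset Col} (hF : F ⊆ F') (hG : G ⊆ G') :
    BFG F G ≤ BFG F' G' := by
  rintro a ⟨ha1, ha2, ha3⟩
  refine ⟨?_, ?_, ?_⟩
  · intro n hn α hα
    exact ha1 n (fun h => hn (hF h)) α (fun h => hα (hG h))
  · intro n α hα α' hα'
    exact ha2 n α (fun h => hα (hG h)) α' (fun h => hα' (hG h))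
  · intro α n hn n' hn'
    exact ha3 α n (fun h => hn (hF h)) n' (fun h => hn' (hF h))

/-- The algebraic union of the building blocks. -/
def A0 : NonUnitalStarSubalgebra ℂ Amb where
  carrier := {a | ∃ F G, a ∈ BFG F G}
  add_mem' := by
    classical
    rintro a b ⟨F, G, ha⟩ ⟨F', G', hb⟩
    exact ⟨F ∪ F', G ∪ G', add_mem (BFG_mono Finset.subset_union_left Finset.subset_union_left ha)
      (BFG_mono Finset.subset_union_right Finset.subset_union_right hb)⟩
  zero_mem' := ⟨∅, ∅, zero_mem _⟩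
  mul_mem' := by
    classical
    rintro a b ⟨F, G, ha⟩ ⟨F', G', hb⟩
    exact ⟨F ∪ F', G ∪ G', mul_mem (BFG_mono Finset.subset_union_left Finset.subset_union_left ha)
      (BFG_mono Finset.subset_union_right Finset.subset_union_right hb)⟩
  smul_mem' := by
    rintro z a ⟨F, G, ha⟩
    exact ⟨F, G, SMulMemClass.smul_mem z ha⟩
  star_mem' := by
    rintro a ⟨F, G, ha⟩
    exact ⟨F, G, star_mem ha⟩

/-- The C*-algebra. -/
def A : NonUnitalStarSubalgebra ℂ Amb := A0.topologicalClosure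

instance : IsClosed (A : Set Amb) := A0.isClosed_topologicalClosure

lemma BFG_le_A (F : Finset ℕ) (G : Finset Col) : BFG F G ≤ A := by
  intro a ha
  exact A0.le_topologicalClosure ⟨F, G, ha⟩

lemma exists_approx {a : Amb} (ha : a ∈ A) {ε : ℝ} (hε : 0 < ε) :
    ∃ F G, ∃ b ∈ BFG F G, ∀ x, ‖a x - b x‖ ≤ ε := by
  have h : a ∈ closure (A0 : Set Amb) := ha
  rw [Metric.mem_closure_iff] at h
  obtain ⟨b, ⟨F, G, hb⟩, hab⟩ := h ε hε
  refine ⟨F, G, b, hb, fun x => ?_⟩
  have h1 := lp.norm_apply_le_norm (p := ∞) (by simp) (a - b) x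
  rw [dist_eq_norm] at hab
  simp only [lp.coeFn_sub, Pi.sub_apply] at h1
  linarith

lemma approx {a : Amb} (ha : a ∈ A) {ε : ℝ} (hε : 0 < ε) :
    ∃ (F : Finset ℕ) (G : Finset Col), (∀ n, n ∉ F → ∀ α, α ∉ G → ‖a (n, α)‖ ≤ ε) ∧
      (∀ n, ∀ α, α ∉ G → ∀ α', α' ∉ G → ‖a (n, α) - a (n, α')‖ ≤ ε) ∧
      (∀ α : Col, ∀ n, n ∉ F → ∀ n', n' ∉ F →
        ‖Ad (α.1 n) (a (n, α)) - Ad (α.1 n') (a (n', α))‖ ≤ ε) := by
  obtain ⟨F, G, b, ⟨hb1, hb2, hb3⟩, hab⟩ := exists_approx ha (half_pos hε)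
  refine ⟨F, G, ?_, ?_, ?_⟩
  · intro n hn α hα
    have h := hab (n, α)
    rw [hb1 n hn α hα, sub_zero] at h
    linarith
  · intro n α hα α' hα'
    have h := hab (n, α)
    have h' := hab (n, α')
    rw [hb2 n α hα α' hα'] at h
    calc ‖a (n, α) - a (n, α')‖ = ‖(a (n, α) - b (n, α')) - (a (n, α') - b (n, α'))‖ := by
          congr 1; abel
      _ ≤ ‖a (n, α) - b (n, α')‖ + ‖a (n, α') - b (n, α')‖ := norm_sub_le _ _
      _ ≤ ε := by linarith
  · intro α n hn n' hn'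
    have h := hab (n, α)
    have h' := hab (n', α)
    have e := hb3 α n hn n' hn'
    have k : ‖Ad (α.1 n) (a (n, α)) - Ad (α.1 n) (b (n, α))‖ ≤ ε / 2 := by
      rw [← Ad_sub]; exact (norm_Ad_le _ _).trans h
    have k' : ‖Ad (α.1 n') (a (n', α)) - Ad (α.1 n') (b (n', α))‖ ≤ ε / 2 := by
      rw [← Ad_sub]; exact (norm_Ad_le _ _).trans h'
    rw [e] at k
    calc ‖Ad (α.1 n) (a (n, α)) - Ad (α.1 n') (a (n', α))‖
        = ‖(Ad (α.1 n) (a (n, α)) - Ad (α.1 n') (b (n', α))) -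
          (Ad (α.1 n') (a (n', α)) - Ad (α.1 n') (b (n', α)))‖ := by
          congr 1; abel
      _ ≤ ‖Ad (α.1 n) (a (n, α)) - Ad (α.1 n') (b (n', α))‖ +
          ‖Ad (α.1 n') (a (n', α)) - Ad (α.1 n') (b (n', α))‖ := norm_sub_le _ _
      _ ≤ ε := by linarith

/-- Along each column the twisted values converge. -/
lemma tendsto_col {a : Amb} (ha : a ∈ A) (α : Col) :
    ∃ l : B, Tendsto (fun n => Ad (α.1 n) (a (n, α))) cofinite (𝓝 l) := by
  apply cauchy_map_iff_exists_tendsto.mp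
  rw [Metric.cauchy_iff]
  refine ⟨inferInstance, fun ε hε => ?_⟩
  obtain ⟨F, G, -, -, h3⟩ := approx ha (half_pos hε)
  refine ⟨(fun n => Ad (α.1 n) (a (n, α))) '' {n | n ∉ F}, ?_, ?_⟩
  · apply image_mem_map
    rw [mem_cofinite]
    simp only [Set.compl_ofPred, not_not]
    exact F.finite_toSet
  · rintro _ ⟨n, hn, rfl⟩ _ ⟨n', hn', rfl⟩
    rw [dist_eq_norm]
    linarith [h3 α n hn n' hn']

/-- Along each row the values are constant off a countable set. -/
lemma row_countable {a : Amb} (ha : a ∈ A) :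
    ∃ I : Set Col, I.Countable ∧ ∀ n, ∀ α, α ∉ I → ∀ α', α' ∉ I → a (n, α) = a (n, α') := by
  have h : ∀ k : ℕ, ∃ G : Finset Col, ∀ n, ∀ α, α ∉ G → ∀ α', α' ∉ G →
      ‖a (n, α) - a (n, α')‖ ≤ 1 / ((k : ℝ) + 1) := by
    intro k
    obtain ⟨F, G, -, h2, -⟩ := approx ha (Nat.one_div_pos_of_nat (n := k) (α := ℝ))
    exact ⟨G, h2⟩
  choose G hG using h
  refine ⟨⋃ k, (G k : Set Col), Set.countable_iUnion fun k => (G k).countable_toSet, ?_⟩
  intro n α hα α' hα'
  have h0 : ‖a (n, α) - a (n, α')‖ ≤ 0 := by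
    refine ge_of_tendsto' (tendsto_one_div_add_atTop_nhds_zero_nat (𝕜 := ℝ)) fun k => ?_
    refine hG k n α ?_ α' ?_
    · intro h; exact hα (Set.mem_iUnion.mpr ⟨k, h⟩)
    · intro h; exact hα' (Set.mem_iUnion.mpr ⟨k, h⟩)
  exact sub_eq_zero.mp (norm_le_zero_iff.mp h0)

/-- Bounded functions. -/
def mk (f : X → B) (C : ℝ) (hf : ∀ x, ‖f x‖ ≤ C) : Amb :=
  ⟨f, memℓp_infty ⟨C, by rintro _ ⟨x, rfl⟩; exact hf x⟩⟩

open Classical in
/-- Point masses. -/
def del (x : X) (m : B) : Amb := mk (fun y => if y = x then m else 0) ‖m‖ (by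
  intro y; split_ifs <;> simp)

open Classical in
/-- Constant functions on a row. -/
def eU (k : ℕ) (m : B) : Amb := mk (fun y => if y.1 = k then m else 0) ‖m‖ (by
  intro y; split_ifs <;> simp)

open Classical in
/-- Twisted constant functions on a column. -/
def eV (α : Col) (m : B) : Amb := mk (fun y => if y.2 = α then Ad' (α.1 y.1) m else 0) ‖m‖ (by
  intro y; split_ifs
  · exact norm_Ad'_le _ _
  · simp)

open Classical in
lemma del_apply (x : X) (m : B) (y : X) : del x m y = if y = x then m else 0 := rfl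

open Classical in
lemma eU_apply (k : ℕ) (m : B) (y : X) : eU k m y = if y.1 = k then m else 0 := rfl

open Classical in
lemma eV_apply (α : Col) (m : B) (y : X) :
    eV α m y = if y.2 = α then Ad' (α.1 y.1) m else 0 := rfl

lemma del_mem (x : X) (m : B) : del x m ∈ A := by
  apply BFG_le_A {x.1} {x.2}
  refine ⟨?_, ?_, ?_⟩
  · intro n hn α hα
    rw [del_apply, if_neg]
    rintro rfl
    simp at hn
  · intro n α hα α' hα'
    rw [del_apply, del_apply, if_neg, if_neg]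
    · rintro rfl; simp at hα'
    · rintro rfl; simp at hα
  · intro α n hn n' hn'
    rw [del_apply, del_apply, if_neg, if_neg, Ad_zero, Ad_zero]
    · rintro rfl; simp at hn'
    · rintro rfl; simp at hn

lemma eU_mem (k : ℕ) (m : B) : eU k m ∈ A := by
  apply BFG_le_A {k} ∅
  refine ⟨?_, ?_, ?_⟩
  · intro n hn α hα
    rw [eU_apply, if_neg]
    simpa using hn
  · intro n α hα α' hα'
    rw [eU_apply, eU_apply]
  · intro α n hn n' hn'
    rw [eU_apply, eU_apply, if_neg, if_neg, Ad_zero, Ad_zero]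
    · simpa using hn'
    · simpa using hn

lemma eV_mem (α : Col) (m : B) : eV α m ∈ A := by
  apply BFG_le_A ∅ {α}
  refine ⟨?_, ?_, ?_⟩
  · intro n hn β hβ
    rw [eV_apply, if_neg]
    simpa using hβ
  · intro n β hβ β' hβ'
    rw [eV_apply, eV_apply, if_neg, if_neg]
    · simpa using hβ'
    · simpa using hβ
  · intro β n hn n' hn'
    rw [eV_apply, eV_apply]
    by_cases h : β = α
    · subst h
      simp [Ad_Ad']
    · simp [h, Ad_zero]

end Pool.Agent.Lib.MP_5c3535_an
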