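import Mathlib

open scoped ENNReal Matrix.Norms.L2Operator
open Filter Topology

noncomputable section

namespace Pool.Agent.Lib.MP_5c3535_an

/-- The fibre algebra: complex 3 by 3 matrices with the operator norm. -/
abbrev B : Type := Matrix (Fin 3) (Fin 3) ℂ

/-- Column indices. -/
abbrev Col : Type := (ℕ → Fin 3) × ℝ

/-- The isolated points of the spectrum. -/
abbrev X : Type := ℕ × Col

/-- The ambient algebra of bounded functions. -/
abbrev Amb : Type := lp (fun _ : X => B) ∞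

example : NonUnitalCStarAlgebra Amb := inferInstance
example : NonUnitalCStarAlgebra B := inferInstance

/-- Three points on the circle forming a scalene triangle. -/
def s : Fin 3 → ℂ := ![1, Complex.I, (3 + 4 * Complex.I) / 5]

lemma s_mul_star (c : Fin 3) : s c * star (s c) = 1 := by
  fin_cases c
  · simp [s]
  · simp [s]
  · simp only [s]
    simp [Complex.ext_iff]
    norm_num

/-- The clutching unitaries. -/
def u (c : Fin 3) : B := Matrix.diagonal ![1, 1, s c]

lemma u_mul_star (c : Fin 3) : u c * star (u c) = 1 := by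
  have h := s_mul_star c
  rw [u, Matrix.star_eq_conjTranspose, Matrix.diagonal_conjTranspose, Matrix.diagonal_mul_diagonal]
  rw [← Matrix.diagonal_one]
  congr 1
  funext i
  fin_cases i
  · simp
  · simp
  · simpa using h

lemma star_u_mul (c : Fin 3) : star (u c) * u c = 1 := by
  exact mul_eq_one_comm.mp (u_mul_star c)

lemma norm_u_le (c : Fin 3) : ‖u c‖ ≤ 1 := by
  have h : ‖star (u c) * u c‖ = ‖u c‖ * ‖u c‖ := CStarRing.norm_star_mul_self
  rw [star_u_mul] at h
  have h1 : ‖(1 : B)‖ = 1 := CStarRing.norm_one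
  rw [h1] at h
  nlinarith [norm_nonneg (u c)]

lemma norm_star_u_le (c : Fin 3) : ‖star (u c)‖ ≤ 1 := by
  rw [norm_star]; exact norm_u_le c

/-- Conjugation by `u c`. -/
def Ad (c : Fin 3) (m : B) : B := u c * m * star (u c)

/-- Conjugation by `star (u c)`. -/
def Ad' (c : Fin 3) (m : B) : B := star (u c) * m * u c

lemma Ad_Ad' (c : Fin 3) (m : B) : Ad c (Ad' c m) = m := by
  unfold Ad Ad'
  calc u c * (star (u c) * m * u c) * star (u c) = (u c * star (u c)) * m * (u c * star (u c)) := by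
        simp only [mul_assoc]
    _ = m := by rw [u_mul_star]; simp

lemma Ad'_Ad (c : Fin 3) (m : B) : Ad' c (Ad c m) = m := by
  unfold Ad Ad'
  calc star (u c) * (u c * m * star (u c)) * u c = (star (u c) * u c) * m * (star (u c) * u c) := by
        simp only [mul_assoc]
    _ = m := by rw [star_u_mul]; simp

lemma norm_Ad_le (c : Fin 3) (m : B) : ‖Ad c m‖ ≤ ‖m‖ := by
  unfold Ad
  calc ‖u c * m * star (u c)‖ ≤ ‖u c‖ * ‖m‖ * ‖star (u c)‖ := norm_mul₃_le
    _ ≤ 1 * ‖m‖ * 1 := by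
        gcongr
        · exact norm_u_le c
        · exact norm_star_u_le c
    _ = ‖m‖ := by ring

lemma norm_Ad'_le (c : Fin 3) (m : B) : ‖Ad' c m‖ ≤ ‖m‖ := by
  unfold Ad'
  calc ‖star (u c) * m * u c‖ ≤ ‖star (u c)‖ * ‖m‖ * ‖u c‖ := norm_mul₃_le
    _ ≤ 1 * ‖m‖ * 1 := by
        gcongr
        · exact norm_star_u_le c
        · exact norm_u_le c
    _ = ‖m‖ := by ring

lemma Ad_add (c : Fin 3) (m m' : B) : Ad c (m + m') = Ad c m + Ad c m' := by
  simp [Ad, mul_add, add_mul]

lemma Ad_sub (c : Fin 3) (m m' : B) : Ad c (m - m') = Ad c m - Ad c m' := by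
  simp [Ad, mul_sub, sub_mul]

lemma Ad_smul (c : Fin 3) (z : ℂ) (m : B) : Ad c (z • m) = z • Ad c m := by
  simp [Ad]

lemma Ad_zero (c : Fin 3) : Ad c 0 = 0 := by simp [Ad]

lemma Ad_one (c : Fin 3) : Ad c 1 = 1 := by simp [Ad, u_mul_star]

lemma Ad'_one (c : Fin 3) : Ad' c 1 = 1 := by simp [Ad', star_u_mul]

lemma Ad'_zero (c : Fin 3) : Ad' c 0 = 0 := by simp [Ad']

lemma Ad_mul (c : Fin 3) (m m' : B) : Ad c (m * m') = Ad c m * Ad c m' := by
  unfold Ad
  calc u c * (m * m') * star (u c) = u c * m * 1 * m' * star (u c) := by simp [mul_assoc]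
    _ = u c * m * (star (u c) * u c) * m' * star (u c) := by rw [star_u_mul]
    _ = _ := by simp only [mul_assoc]

lemma Ad_star (c : Fin 3) (m : B) : Ad c (star m) = star (Ad c m) := by
  simp [Ad, mul_assoc]

lemma Ad_continuous (c : Fin 3) : Continuous (Ad c) := by
  unfold Ad
  fun_prop

/-- The finite-dimensional building blocks. -/
def BFG (F : Finset ℕ) (G : Finset Col) : NonUnitalStarSubalgebra ℂ Amb where
  carrier := {a | (∀ n, n ∉ F → ∀ α, α ∉ G → a (n, α) = 0) ∧
    (∀ n, ∀ α, α ∉ G → ∀ α', α' ∉ G → a (n, α) = a (n, α')) ∧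
    (∀ α : Col, ∀ n, n ∉ F → ∀ n', n' ∉ F → Ad (α.1 n) (a (n, α)) = Ad (α.1 n') (a (n', α)))}
  add_mem' := by
    rintro a b ⟨ha1, ha2, ha3⟩ ⟨hb1, hb2, hb3⟩
    refine ⟨?_, ?_, ?_⟩
    · intro n hn α hα
      simp [ha1 n hn α hα, hb1 n hn α hα]
    · intro n α hα α' hα'
      simp [ha2 n α hα α' hα', hb2 n α hα α' hα']
    · intro α n hn n' hn'
      simp only [lp.coeFn_add, Pi.add_apply, Ad_add]
      rw [ha3 α n hn n' hn', hb3 α n hn n' hn']
  zero_mem' := by
    refine ⟨?_, ?_, ?_⟩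
    · intro n hn α hα
      simp
    · intro n α hα α' hα'
      simp
    · intro α n hn n' hn'
      simp [Ad_zero]
  mul_mem' := by
    rintro a b ⟨ha1, ha2, ha3⟩ ⟨hb1, hb2, hb3⟩
    refine ⟨?_, ?_, ?_⟩
    · intro n hn α hα
      simp [lp.infty_coeFn_mul, ha1 n hn α hα]
    · intro n α hα α' hα'
      simp [lp.infty_coeFn_mul, ha2 n α hα α' hα', hb2 n α hα α' hα']
    · intro α n hn n' hn'
      simp only [lp.infty_coeFn_mul, Pi.mul_apply, Ad_mul]
      rw [ha3 α n hn n' hn', hb3 α n hn n' hn']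
  smul_mem' := by
    rintro z a ⟨ha1, ha2, ha3⟩
    refine ⟨?_, ?_, ?_⟩
    · intro n hn α hα
      simp [ha1 n hn α hα]
    · intro n α hα α' hα'
      simp [ha2 n α hα α' hα']
    · intro α n hn n' hn'
      simp only [lp.coeFn_smul, Pi.smul_apply, Ad_smul]
      rw [ha3 α n hn n' hn']
  star_mem' := by
    rintro a ⟨ha1, ha2, ha3⟩
    refine ⟨?_, ?_, ?_⟩
    · intro n hn α hα
      simp [lp.coeFn_star, ha1 n hn α hα]
    · intro n α hα α' hα'
      simp [lp.coeFn_star, ha2 n α hα α' hα']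
    · intro α n hn n' hn'
      simp only [lp.coeFn_star, Pi.star_apply, Ad_star]
      rw [ha3 α n hn n' hn']

end Pool.Agent.Lib.MP_5c3535_an
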