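import Pool.Agent.Lib.MP_5c3535_an.Limit

open scoped ENNReal Matrix.Norms.L2Operator
open Filter Topology

noncomputable section

namespace Pool.Agent.Lib.MP_5c3535_an

lemma s_zero : s 0 = 1 := rfl
lemma s_one : s 1 = Complex.I := rfl
lemma s_two : s 2 = (3 + 4 * Complex.I) / 5 := rfl

lemma s_two_re : (s 2).re = 3 / 5 := by rw [s_two]; norm_num
lemma s_two_im : (s 2).im = 4 / 5 := by rw [s_two]; norm_num

lemma s_check (a b c : Fin 3) (h1 : star (s a) * s b = star (s 1))
    (h2 : star (s a) * s c = star (s 2)) : False := by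
  rw [Complex.ext_iff] at h1 h2
  have e0r : (s 0).re = 1 := by rw [s_zero]; simp
  have e0i : (s 0).im = 0 := by rw [s_zero]; simp
  have e1r : (s 1).re = 0 := by rw [s_one]; simp
  have e1i : (s 1).im = 1 := by rw [s_one]; simp
  have e2r := s_two_re
  have e2i := s_two_im
  simp only [Complex.mul_re, Complex.mul_im, Complex.star_def, Complex.conj_re, Complex.conj_im]
    at h1 h2
  fin_cases a <;> fin_cases b <;> fin_cases c <;>
  simp only [Fin.zero_eta, Fin.mk_one, Fin.reduceFinMk, e0r, e0i, e1r, e1i, e2r, e2i] at h1 h2 <;>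
  first
    | (norm_num at h1; done)
    | (norm_num at h2; done)

lemma star_s_sub_one_ne (c : Fin 3) (hc : c ≠ 0) : star (s c) - 1 ≠ 0 := by
  intro h
  have h1 := congrArg Complex.im h
  simp only [Complex.sub_im, Complex.star_def, Complex.conj_im, Complex.one_im] at h1
  have e1i : (s 1).im = 1 := by rw [s_one]; simp
  have e2i := s_two_im
  fin_cases c
  · exact hc rfl
  · simp only [Fin.mk_one, e1i] at h1
    norm_num at h1
  · simp only [Fin.reduceFinMk, e2i] at h1
    norm_num at h1

/-- The rank one projection. -/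
def e3 : B := Matrix.diagonal ![0, 0, 1]

lemma star_u_eq (c : Fin 3) : star (u c) = 1 + (star (s c) - 1) • e3 := by
  unfold u e3
  rw [Matrix.star_eq_conjTranspose, Matrix.diagonal_conjTranspose, ← Matrix.diagonal_smul,
    ← Matrix.diagonal_one, Matrix.diagonal_add]
  congr 1
  funext i
  fin_cases i <;> simp

lemma e3_idem : e3 * e3 = e3 := by
  unfold e3
  rw [Matrix.diagonal_mul_diagonal]
  congr 1
  funext i
  fin_cases i <;> simp

lemma e3_corner (m : B) : e3 * m * e3 = m 2 2 • e3 := by
  unfold e3
  ext i j
  rw [Matrix.mul_diagonal, Matrix.diagonal_mul, Matrix.smul_apply, Matrix.diagonal_apply]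
  fin_cases i <;> fin_cases j <;> simp

lemma e3_comm (m m' : B) : e3 * m * e3 * m' * e3 = e3 * m' * e3 * m * e3 := by
  have h1 : e3 * m * e3 * m' * e3 = (m 2 2 * m' 2 2) • e3 := by
    rw [e3_corner, smul_mul_assoc, smul_mul_assoc, e3_corner, smul_smul]
  have h2 : e3 * m' * e3 * m * e3 = (m' 2 2 * m 2 2) • e3 := by
    rw [e3_corner, smul_mul_assoc, smul_mul_assoc, e3_corner, smul_smul]
  rw [h1, h2, mul_comm]

lemma e3_ne_zero : e3 ≠ 0 := by
  intro h
  have := congrFun (congrFun h 2) 2
  simp [e3] at this

theorem no_limit (θ : B → B) (π : Fin 3 → Fin 3) (ψ : B → B)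
    (hadd : ∀ m m', θ (m + m') = θ m + θ m') (hsmul : ∀ (z : ℂ) m, θ (z • m) = z • θ m)
    (hmul : ∀ m m', θ (m * m') = θ m' * θ m) (hone : θ 1 = 1)
    (hrel : ∀ c m, Ad (π c) (θ (Ad' c m)) = ψ m) : False := by
  -- `θ` is bijective
  let L : B →ₗ[ℂ] B := { toFun := θ, map_add' := hadd, map_smul' := hsmul }
  let R : B →+* Bᵐᵒᵖ :=
    { toFun := fun m => MulOpposite.op (θ m)
      map_one' := by rw [hone]; rfl
      map_mul' := fun m m' => by rw [hmul]; rfl
      map_zero' := by
        have h := hsmul 0 0
        simp only [zero_smul] at h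
        rw [h]; rfl
      map_add' := fun m m' => by rw [hadd]; rfl }
  have hR : Function.Injective R := RingHom.injective R
  have hinj : Function.Injective L := by
    intro m m' h
    apply hR
    show MulOpposite.op (θ m) = MulOpposite.op (θ m')
    exact congrArg _ h
  have hsurj : Function.Surjective L := LinearMap.injective_iff_surjective.mp hinj
  have hsurj' : ∀ x, ∃ m, θ m = x := hsurj
  have hinj' : Function.Injective θ := hinj
  have h0 : θ 0 = 0 := by
    have h := hsmul 0 0
    simpa only [zero_smul] using h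
  have key : ∀ c, c ≠ 0 → star (s (π 0)) * s (π c) = star (s c) := by
    intro c hc
    set P := θ (star (u c)) with hP
    set Q := θ (u c) with hQ
    have hQP : Q * P = 1 := by rw [hQ, hP, ← hmul, star_u_mul, hone]
    have hconj : ∀ m, u (π 0) * (P * θ m * Q) * star (u (π 0)) = u (π c) * θ m * star (u (π c)) := by
      intro m
      have h1 := hrel c (Ad c m)
      rw [Ad'_Ad] at h1
      have h2 := hrel 0 (Ad c m)
      rw [Ad'_zero_idx, ← h1] at h2
      have h3 : θ (Ad c m) = P * θ m * Q := by
        unfold Ad
        rw [hmul, hmul, ← mul_assoc]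
      rw [h3] at h2
      exact h2
    set Z := star (u (π c)) * u (π 0) * P with hZ
    have hZcomm : ∀ x : B, Z * x = x * Z := by
      intro x
      obtain ⟨m, rfl⟩ := hsurj' x
      have h1 : Z * θ m = star (u (π c)) * (u (π 0) * (P * θ m * Q) * star (u (π 0))) * u (π 0) * P := by
        calc Z * θ m = star (u (π c)) * u (π 0) * P * θ m * 1 := by rw [mul_one]
          _ = star (u (π c)) * u (π 0) * P * θ m * (Q * P) := by rw [hQP]
          _ = star (u (π c)) * u (π 0) * P * θ m * Q * 1 * P := by simp only [mul_assoc, one_mul]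
          _ = star (u (π c)) * u (π 0) * P * θ m * Q * (star (u (π 0)) * u (π 0)) * P := by
              rw [star_u_mul]
          _ = _ := by simp only [mul_assoc]
      rw [h1, hconj]
      calc star (u (π c)) * (u (π c) * θ m * star (u (π c))) * u (π 0) * P
          = (star (u (π c)) * u (π c)) * θ m * (star (u (π c)) * u (π 0) * P) := by
            simp only [mul_assoc]
        _ = θ m * Z := by rw [star_u_mul, one_mul]
    obtain ⟨z, hz⟩ := central_scalar hZcomm
    have hPz : P = z • (star (u (π 0)) * u (π c)) := by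
      have h1 : u (π c) * Z = u (π 0) * P := by
        rw [hZ]
        calc u (π c) * (star (u (π c)) * u (π 0) * P) = (u (π c) * star (u (π c))) * u (π 0) * P := by
              simp only [mul_assoc]
          _ = _ := by rw [u_mul_star, one_mul]
      calc P = (star (u (π 0)) * u (π 0)) * P := by rw [star_u_mul, one_mul]
        _ = star (u (π 0)) * (u (π 0) * P) := by rw [mul_assoc]
        _ = star (u (π 0)) * (u (π c) * (z • (1 : B))) := by rw [← h1, hz]
        _ = _ := by simp
    set p := θ e3 with hp
    have hPp : P = 1 + (star (s c) - 1) • p := by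
      rw [hP, star_u_eq, hadd, hsmul, hone]
    set w := star (s (π 0)) * s (π c) with hw
    have hdiag : star (u (π 0)) * u (π c) = Matrix.diagonal ![1, 1, w] := by
      unfold u
      rw [Matrix.star_eq_conjTranspose, Matrix.diagonal_conjTranspose, Matrix.diagonal_mul_diagonal]
      congr 1
      funext i
      fin_cases i
      · simp
      · simp
      · simp [hw]
    have hκ := star_s_sub_one_ne c hc
    set κ := star (s c) - 1 with hκdef
    have hpeq : κ • p = Matrix.diagonal ![z - 1, z - 1, z * w - 1] := by
      have h1 : κ • p = P - 1 := by rw [hPp]; abel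
      rw [h1, hPz, hdiag, ← Matrix.diagonal_smul, ← Matrix.diagonal_one, Matrix.diagonal_sub]
      congr 1
      funext i
      fin_cases i <;> simp
    have hpd : p = Matrix.diagonal ![κ⁻¹ * (z - 1), κ⁻¹ * (z - 1), κ⁻¹ * (z * w - 1)] := by
      have h1 : p = κ⁻¹ • (κ • p) := by rw [smul_smul, inv_mul_cancel₀ hκ, one_smul]
      rw [h1, hpeq, ← Matrix.diagonal_smul]
      congr 1
      funext i
      fin_cases i <;> simp
    set a := κ⁻¹ * (z - 1) with ha
    set b := κ⁻¹ * (z * w - 1) with hb
    have hpp : p * p = p := by rw [hp, ← hmul, e3_idem]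
    have haa : a * a = a := by
      have h1 := congrFun (congrFun hpp 0) 0
      rw [hpd, Matrix.diagonal_mul_diagonal] at h1
      simpa using h1
    have hbb : b * b = b := by
      have h1 := congrFun (congrFun hpp 2) 2
      rw [hpd, Matrix.diagonal_mul_diagonal] at h1
      simpa using h1
    have hcomm : ∀ x y : B, p * x * p * y * p = p * y * p * x * p := by
      intro x y
      obtain ⟨m, rfl⟩ := hsurj' x
      obtain ⟨m', rfl⟩ := hsurj' y
      have h1 := congrArg θ (e3_comm m m')
      simp only [hmul] at h1
      rw [← hp] at h1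
      simp only [mul_assoc] at h1 ⊢
      exact h1.symm
    have ha0 : a = 0 := by
      by_contra hane
      have ha1 : a = 1 := by
        have : a * (a - 1) = 0 := by rw [mul_sub, haa, mul_one, sub_self]
        exact sub_eq_zero.mp ((mul_eq_zero.mp this).resolve_left hane)
      have h1 := hcomm (Matrix.single 0 1 1) (Matrix.single 1 0 1)
      have h2 := congrFun (congrFun h1 0) 0
      rw [hpd, ha1] at h2
      simp [Matrix.mul_apply, Fin.sum_univ_three, Matrix.diagonal_apply, Matrix.single_apply] at h2
    have hb1 : b = 1 := by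
      by_contra hbne
      have hb0 : b = 0 := by
        have : b * (b - 1) = 0 := by rw [mul_sub, hbb, mul_one, sub_self]
        exact (mul_eq_zero.mp this).resolve_right (fun h => hbne (sub_eq_zero.mp h))
      have : p = 0 := by
        rw [hpd, ha0, hb0]
        ext i j
        rw [Matrix.diagonal_apply]
        fin_cases i <;> fin_cases j <;> simp
      apply e3_ne_zero
      apply hinj'
      rw [h0, ← hp, this]
    have hz1 : z = 1 := by
      have h1 : κ * a = z - 1 := by rw [ha, ← mul_assoc, mul_inv_cancel₀ hκ, one_mul]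
      rw [ha0, mul_zero] at h1
      exact (sub_eq_zero.mp h1.symm)
    have hw1 : κ = w - 1 := by
      have h1 : κ * b = z * w - 1 := by rw [hb, ← mul_assoc, mul_inv_cancel₀ hκ, one_mul]
      rw [hb1, mul_one, hz1, one_mul] at h1
      exact h1
    have h2 : star (s c) - 1 = w - 1 := by rw [← hκdef]; exact hw1
    exact (sub_left_injective h2).symm
  exact s_check (π 0) (π 1) (π 2) (key 1 (by decide)) (key 2 (by decide))

theorem no_anti (Φ : Anti) : False := by
  obtain ⟨θ, π, ψ, h1, h2, h3, -, h5, h6⟩ := Φ.limit
  exact no_limit θ π ψ h1 h2 h3 h5 h6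

end Pool.Agent.Lib.MP_5c3535_an
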