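import Pool.Agent.Lib.MP_5c3535_an.RowMap

open scoped ENNReal Matrix.Norms.L2Operator
open Filter Topology

noncomputable section

namespace Pool.Agent.Lib.MP_5c3535_an

lemma col_uncountable_fibre (f : ℕ → Fin 3) {I : Set Col} (hI : I.Countable) :
    ∃ r : ℝ, ((f, r) : Col) ∉ I := by
  by_contra hcon
  push Not at hcon
  have h1 : ((fun r : ℝ => ((f, r) : Col)) ⁻¹' I).Countable :=
    hI.preimage (Prod.mk_right_injective f)
  have h2 : ((fun r : ℝ => ((f, r) : Col)) ⁻¹' I) = Set.univ := by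
    ext r; simp [hcon r]
  rw [h2] at h1
  exact not_countable (Set.countable_univ_iff.mp h1)

variable (Φ : Anti)

lemma Anti.row_finite {I : Set Col} {s : ℕ → ℕ} (hI : I.Countable)
    (hs : ∀ n, ∀ α, α ∉ I → (Φ.χ (n, α)).1 = s n) (k : ℕ) : {n | s n = k}.Finite := by
  classical
  obtain ⟨F, G, h1, -, -⟩ := ev_approx (Φ.f (U k 1)) (ε := 1 / 2) (by norm_num)
  obtain ⟨r, hr⟩ := col_uncountable_fibre (fun _ => 0) (hI.union G.countable_toSet)
  simp only [Set.mem_union, not_or, Finset.mem_coe] at hr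
  apply F.finite_toSet.subset
  intro n hn
  by_contra hnF
  have h := h1 n hnF _ hr.2
  rw [Φ.f_U, if_pos ((hs n _ hr.1).trans hn), Φ.θ_one, norm_one_B] at h
  norm_num at h

lemma Anti.col_exists (α : Col) : ∃ β : Col, ∃ F : Set ℕ, F.Finite ∧ ∀ n, n ∉ F →
    (Φ.χ (n, β)).2 = α := by
  classical
  obtain ⟨F, G, h1, h2, h3⟩ := ev_approx (Φ.f (V α 1)) (ε := 1 / 2) (by norm_num)
  have hval : ∀ y, ev (Φ.f (V α 1)) y = if (Φ.χ y).2 = α then 1 else 0 := by
    intro y
    rw [Φ.f_V]
    split_ifs with h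
    · rw [Ad'_one, Φ.θ_one]
    · rfl
  -- the set of points mapped to the column `α`
  set Y : Set X := {y | (Φ.χ y).2 = α} with hY
  have hYc : Y.Countable := by
    have hinj : Set.InjOn (fun y => (Φ.χ y).1) Y := by
      intro y hy y' hy' h
      apply Φ.χ_inj
      exact Prod.ext h (by rw [hY] at hy hy'; exact hy.trans hy'.symm)
    exact Set.countable_of_injective_of_countable_image hinj (Set.to_countable _)
  have hYinf : Y.Infinite := by
    have hsurj : ∀ k : ℕ, ∃ y ∈ Y, (Φ.χ y).1 = k := by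
      intro k
      obtain ⟨y, hy⟩ := Φ.χ_surj (k, α)
      exact ⟨y, by rw [hY]; show (Φ.χ y).2 = α; rw [hy], by rw [hy]⟩
    intro hfin
    have himg : ((fun y => (Φ.χ y).1) '' Y).Finite := hfin.image _
    have huniv : ((fun y => (Φ.χ y).1) '' Y) = Set.univ := by
      ext k
      simp only [Set.mem_image, Set.mem_univ, iff_true]
      obtain ⟨y, hy, hk⟩ := hsurj k
      exact ⟨y, hy, hk⟩
    rw [huniv] at himg
    exact Set.infinite_univ himg
  -- each row meets `Y` only inside `G`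
  have hrow : ∀ n, ∀ β, β ∉ G → (n, β) ∉ Y := by
    intro n β hβ hmem
    -- then all columns outside `G` are in `Y`
    have hall : ∀ β', β' ∉ G → (n, β') ∈ Y := by
      intro β' hβ'
      have h := h2 n β hβ β' hβ'
      rw [hval, hval, if_pos (show (Φ.χ (n, β)).2 = α from hmem)] at h
      by_contra hne
      rw [if_neg (show ¬ (Φ.χ (n, β')).2 = α from hne), sub_zero, norm_one_B] at h
      norm_num at h
    have hc : ((fun β' : Col => ((n, β') : X)) ⁻¹' Y).Countable :=
      hYc.preimage (Prod.mk_right_injective n)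
    obtain ⟨r, hr⟩ := col_uncountable_fibre (fun _ => 0) (hc.union G.countable_toSet)
    simp only [Set.mem_union, not_or, Finset.mem_coe] at hr
    exact hr.1 (hall _ hr.2)
  -- pigeonhole
  have hsub : Y ⊆ ⋃ β ∈ G, {y | y ∈ Y ∧ y.2 = β} := by
    intro y hy
    by_cases hβ : y.2 ∈ G
    · simp only [Set.mem_iUnion]
      exact ⟨y.2, hβ, hy, rfl⟩
    · exact absurd hy (hrow y.1 y.2 hβ)
  obtain ⟨β, hβ, hβinf⟩ : ∃ β ∈ G, {y | y ∈ Y ∧ y.2 = β}.Infinite := by
    by_contra hcon
    push Not at hcon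
    apply hYinf
    apply Set.Finite.subset _ hsub
    apply Set.Finite.biUnion G.finite_toSet
    intro β hβ
    exact hcon β hβ
  have hNinf : {n | (n, β) ∈ Y}.Infinite := by
    intro hfin
    apply hβinf
    apply (hfin.image (fun n => ((n, β) : X))).subset
    rintro ⟨n, β'⟩ ⟨hy, hb⟩
    simp only at hb
    subst hb
    exact ⟨n, hy, rfl⟩
  refine ⟨β, F, F.finite_toSet, ?_⟩
  obtain ⟨n0, hn0, hn0F⟩ := hNinf.exists_notMem_finset F
  intro n hn
  have h := h3 β n hn n0 hn0F
  rw [hval, hval, if_pos (show (Φ.χ (n0, β)).2 = α from hn0), Ad_one] at h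
  by_contra hne
  rw [if_neg hne, Ad_zero, zero_sub, norm_neg, norm_one_B] at h
  norm_num at h

end Pool.Agent.Lib.MP_5c3535_an
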