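import Pool.Agent.Lib.MP_5c3535_an.Chiral

open scoped ENNReal Matrix.Norms.L2Operator

noncomputable section

namespace Pool.Agent.Lib.MP_5c3535_an

/-- The building blocks as subalgebras of `AT`. -/
def SFG (F : Finset ℕ) (G : Finset Col) : NonUnitalStarSubalgebra ℂ AT where
  carrier := {a | (a : A).1 ∈ BFG F G}
  add_mem' := by
    intro a b ha hb
    exact (BFG F G).add_mem ha hb
  zero_mem' := (BFG F G).zero_mem
  mul_mem' := by
    intro a b ha hb
    exact (BFG F G).mul_mem ha hb
  smul_mem' := by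
    intro z a ha
    exact SMulMemClass.smul_mem (S := NonUnitalStarSubalgebra ℂ Amb) (s := BFG F G) z ha
  star_mem' := by
    intro a ha
    exact star_mem (S := NonUnitalStarSubalgebra ℂ Amb) (s := BFG F G) ha

lemma mem_SFG {F : Finset ℕ} {G : Finset Col} {a : AT} :
    a ∈ SFG F G ↔ (a : A).1 ∈ BFG F G := Iff.rfl

lemma SFG_mono {F F' : Finset ℕ} {G G' : Finset Col} (hF : F ⊆ F') (hG : G ⊆ G') :
    SFG F G ≤ SFG F' G' := fun _ ha => BFG_mono hF hG ha

lemma SFG_fd (F : Finset ℕ) (G : Finset Col) :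
    FiniteDimensional ℂ (Submodule.span ℂ (SFG F G : Set AT)) := by
  classical
  -- pick test points
  obtain ⟨n0, hn0⟩ := Infinite.exists_notMem_finset F
  obtain ⟨α0, hα0⟩ := Infinite.exists_notMem_finset G
  let F' := insert n0 F
  let G' := insert α0 G
  have hspan : Submodule.span ℂ (SFG F G : Set AT) = (SFG F G).toSubmodule := by
    apply le_antisymm
    · rw [Submodule.span_le]
      intro a ha
      exact ha
    · intro a ha
      exact Submodule.subset_span ha
  rw [hspan]
  let T : (SFG F G).toSubmodule →ₗ[ℂ] (F' × G' → B) :=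
    { toFun := fun a x => ev a.1 (x.1.1, x.2.1)
      map_add' := by
        intro a b
        funext x
        exact ev_add a.1 b.1 _
      map_smul' := by
        intro z a
        funext x
        exact ev_smul z a.1 _ }
  apply FiniteDimensional.of_injective T
  rw [← LinearMap.ker_eq_bot, LinearMap.ker_eq_bot']
  rintro ⟨a, ha⟩ h
  have hT : ∀ n ∈ F', ∀ α ∈ G', ev a (n, α) = 0 := by
    intro n hn α hα
    exact congrFun h (⟨n, hn⟩, ⟨α, hα⟩)
  obtain ⟨h1, h2, h3⟩ : (a : A).1 ∈ BFG F G := ha
  have hn0' : n0 ∈ F' := Finset.mem_insert_self _ _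
  have hα0' : α0 ∈ G' := Finset.mem_insert_self _ _
  have key : ∀ x, ev a x = 0 := by
    rintro ⟨n, α⟩
    by_cases hα : α ∈ G
    · by_cases hn : n ∈ F
      · exact hT n (Finset.mem_insert_of_mem hn) α (Finset.mem_insert_of_mem hα)
      · have e := h3 α n hn n0 hn0
        have e0 : ev a (n0, α) = 0 := hT n0 hn0' α (Finset.mem_insert_of_mem hα)
        have e1 : Ad (α.1 n) (ev a (n, α)) = Ad (α.1 n0) (ev a (n0, α)) := e
        rw [e0, Ad_zero] at e1
        have e2 := congrArg (Ad' (α.1 n)) e1
        rwa [Ad'_Ad, Ad'_zero] at e2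
    · have e : ev a (n, α) = ev a (n, α0) := h2 n α hα α0 hα0
      rw [e]
      by_cases hn : n ∈ F
      · exact hT n (Finset.mem_insert_of_mem hn) α0 hα0'
      · exact h1 n hn α0 hα0
  apply Subtype.ext
  apply ev_ext
  intro x
  rw [key x]
  exact (ev_zero x).symm

lemma SFG_dense : Dense (⋃ s ∈ Set.range (fun p : Finset ℕ × Finset Col => SFG p.1 p.2),
    (s : Set AT)) := by
  intro a
  rw [Metric.mem_closure_iff]
  intro ε hε
  have h : (a : A).1 ∈ closure (A0 : Set Amb) := (a : A).2
  rw [Metric.mem_closure_iff] at h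
  obtain ⟨b, ⟨F, G, hb⟩, hab⟩ := h ε hε
  refine ⟨(⟨b, BFG_le_A F G hb⟩ : A), ?_, hab⟩
  simp only [Set.mem_iUnion]
  exact ⟨SFG F G, ⟨(F, G), rfl⟩, hb⟩

lemma AT_nonsep : ¬ TopologicalSpace.SeparableSpace AT := by
  classical
  intro hsep
  have hdist : ∀ α β : Col, α ≠ β → 1 ≤ dist (V α 1) (V β 1) := by
    intro α β hne
    have h : dist (V α 1) (V β 1) = ‖eV α 1 - eV β 1‖ := dist_eq_norm (eV α 1) (eV β 1)
    rw [h]
    have h1 := lp.norm_apply_le_norm (p := ∞) (by simp) (eV α 1 - eV β 1) (0, α)
    simp only [lp.coeFn_sub, Pi.sub_apply] at h1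
    rw [eV_apply, eV_apply, if_pos rfl, if_neg hne, Ad'_one, sub_zero, norm_one_B] at h1
    exact h1
  have hdisj : Pairwise (fun α β : Col =>
      Disjoint (Metric.ball (V α 1) (1 / 2)) (Metric.ball (V β 1) (1 / 2))) := by
    intro α β hne
    apply Metric.ball_disjoint_ball
    have := hdist α β hne
    linarith
  have hc : Countable Col := by
    have h1 : (Set.univ : Set Col).PairwiseDisjoint
        (fun α => Metric.ball (V α 1) (1 / 2)) := by
      intro α _ β _ hne
      exact hdisj hne
    have h2 := h1.countable_of_isOpen (fun α _ => Metric.isOpen_ball)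
      (fun α _ => ⟨V α 1, Metric.mem_ball_self (by norm_num)⟩)
    exact Set.countable_univ_iff.mp h2
  have h4 : Countable ℝ := (Prod.mk_right_injective (fun _ : ℕ => (0 : Fin 3))).countable
  exact not_countable h4

lemma AT_not_op : IsEmpty (AT ≃⋆ₐ[ℂ] ATᵐᵒᵖ) := by
  constructor
  intro e
  refine no_anti
    { f := fun a => MulOpposite.unop (e a)
      map_add := ?_
      map_mul := ?_
      map_star := ?_
      map_smul := ?_
      inj := ?_
      surj := ?_ }
  · intro a b
    rw [map_add, MulOpposite.unop_add]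
  · intro a b
    rw [map_mul, MulOpposite.unop_mul]
  · intro a
    rw [map_star, MulOpposite.unop_star]
  · intro z a
    rw [map_smul, MulOpposite.unop_smul]
  · intro a b h
    exact e.injective (MulOpposite.unop_injective h)
  · intro b
    obtain ⟨a, ha⟩ := e.surjective (MulOpposite.op b)
    exact ⟨a, congrArg MulOpposite.unop ha⟩

end Pool.Agent.Lib.MP_5c3535_an
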