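import Pool.Agent.Lib.MP_5c3535_an.ColMap

open scoped ENNReal Matrix.Norms.L2Operator
open Filter Topology

noncomputable section

namespace Pool.Agent.Lib.MP_5c3535_an

lemma pigeon {E : Set ℕ} (hE : E.Infinite) (g : ℕ → Fin 3) :
    ∃ c, {n | n ∈ E ∧ g n = c}.Infinite := by
  by_contra hcon
  push Not at hcon
  apply hE
  have : E ⊆ ⋃ c, {n | n ∈ E ∧ g n = c} := by
    intro n hn
    exact Set.mem_iUnion.mpr ⟨g n, hn, rfl⟩
  exact (Set.finite_iUnion fun c => hcon c).subset this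

lemma split_infinite {T : Set ℕ} (hT : T.Infinite) :
    ∃ f : ℕ → Fin 3, ∀ c, {t | t ∈ T ∧ f t = c}.Infinite := by
  classical
  set e := hT.natEmbedding with he
  have hlt : ∀ j : ℕ, j % 3 < 3 := fun j => Nat.mod_lt _ (by norm_num)
  set f : ℕ → Fin 3 := fun t =>
    if h : ∃ j, ((e j : T) : ℕ) = t then ⟨h.choose % 3, hlt _⟩ else 0 with hf
  have hfe : ∀ j, f ((e j : T) : ℕ) = ⟨j % 3, hlt _⟩ := by
    intro j
    have h : ∃ j', ((e j' : T) : ℕ) = ((e j : T) : ℕ) := ⟨j, rfl⟩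
    have h1 : f ((e j : T) : ℕ) = ⟨h.choose % 3, hlt _⟩ := dif_pos h
    have h2 : h.choose = j := by
      apply e.injective
      apply Subtype.ext
      exact h.choose_spec
    rw [h1]
    apply Fin.ext
    show h.choose % 3 = j % 3
    rw [h2]
  refine ⟨f, fun c => ?_⟩
  apply Set.infinite_of_injective_forall_mem (f := fun i : ℕ => ((e (3 * i + c.val) : T) : ℕ))
  · intro i i' h
    have h1 := e.injective (Subtype.ext h)
    omega
  · intro i
    refine ⟨(e (3 * i + c.val)).2, ?_⟩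
    rw [hfe]
    apply Fin.ext
    show (3 * i + c.val) % 3 = c.val
    have := c.isLt
    omega

lemma Ad'_continuous (c : Fin 3) : Continuous (Ad' c) := by
  unfold Ad'
  fun_prop

lemma u_zero : u 0 = 1 := by
  unfold u s
  rw [← Matrix.diagonal_one]
  congr 1
  funext i
  fin_cases i <;> simp

lemma Ad'_zero_idx (m : B) : Ad' 0 m = m := by
  unfold Ad'
  rw [u_zero]; simp



/-- The limiting relation. -/
theorem Anti.limit (Φ : Anti) : ∃ (θ : B → B) (π : Fin 3 → Fin 3) (ψ : B → B),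
    (∀ m m', θ (m + m') = θ m + θ m') ∧ (∀ (z : ℂ) m, θ (z • m) = z • θ m) ∧
    (∀ m m', θ (m * m') = θ m' * θ m) ∧ (∀ m, θ (star m) = star (θ m)) ∧ θ 1 = 1 ∧
    (∀ c m, Ad (π c) (θ (Ad' c m)) = ψ m) := by
  classical
  obtain ⟨I, s, hI, hs, hθ⟩ := Φ.row_map
  have hfin := Φ.row_finite hI hs
  have hcol := Φ.col_exists
  choose τ Fτ hFτ hτ using hcol
  have hτinj : Function.Injective τ := by
    intro α α' h
    obtain ⟨n, hn⟩ := ((hFτ α).union (hFτ α')).infinite_compl.nonempty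
    simp only [Set.mem_compl_iff, Set.mem_union, not_or] at hn
    have h1 := hτ α n hn.1
    have h2 := hτ α' n hn.2
    rw [h] at h1
    exact h1.symm.trans h2
  have hexc : {α | τ α ∈ I}.Countable := hI.preimage hτinj
  obtain ⟨r, hr⟩ := col_uncountable_fibre (fun _ => 0) hI
  set βs : Col := (fun _ => 0, r) with hβs
  set θn : ℕ → B → B := fun n m => Φ.θ (n, βs) m with hθn
  have hconv : ∀ α, τ α ∉ I → ∀ m, ∃ l : B,
      Tendsto (fun n => Ad ((τ α).1 n) (θn n (Ad' (α.1 (s n)) m))) cofinite (𝓝 l) := by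
    intro α hα m
    obtain ⟨l, hl⟩ := ev_tendsto_col (Φ.f (V α m)) (τ α)
    refine ⟨l, hl.congr' ?_⟩
    have hmem : (Fτ α)ᶜ ∈ (cofinite : Filter ℕ) := (hFτ α).compl_mem_cofinite
    filter_upwards [hmem] with n hn
    rw [Φ.f_V, if_pos (hτ α n hn), hs n (τ α) hα, hθn]
    simp only
    rw [hθ n (τ α) hα βs hr]
  -- first column: the constant sequence
  obtain ⟨r0, hr0⟩ := col_uncountable_fibre (fun _ => 0) hexc
  set α0 : Col := (fun _ => 0, r0) with hα0
  have hα0' : τ α0 ∉ I := hr0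
  obtain ⟨c0, hE⟩ := pigeon (E := Set.univ) Set.infinite_univ (τ α0).1
  set E : Set ℕ := {n | n ∈ Set.univ ∧ (τ α0).1 n = c0} with hEdef
  have hNB : (cofinite ⊓ 𝓟 E : Filter ℕ).NeBot := cofinite_inf_principal_neBot_iff.mpr hE
  have hθlim : ∀ m, ∃ l : B, Tendsto (fun n => θn n m) (cofinite ⊓ 𝓟 E) (𝓝 l) := by
    intro m
    obtain ⟨l, hl⟩ := hconv α0 hα0' m
    have h1 := ((Ad'_continuous c0).tendsto l).comp (hl.mono_left inf_le_left :
      Tendsto _ (cofinite ⊓ 𝓟 E) (𝓝 l))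
    refine ⟨Ad' c0 l, h1.congr' ?_⟩
    have hmem : E ∈ (cofinite ⊓ 𝓟 E : Filter ℕ) := mem_inf_of_right (mem_principal_self E)
    filter_upwards [hmem] with n hn
    simp only [Function.comp]
    have h2 : (τ α0).1 n = c0 := hn.2
    have h3 : α0.1 (s n) = 0 := rfl
    rw [h2, h3, Ad'_zero_idx, Ad'_Ad]
  choose θ hθl using hθlim
  -- second column
  have hsE : (s '' E).Infinite := by
    intro hf
    apply hE
    have : E ⊆ ⋃ k ∈ s '' E, {n | s n = k} := by
      intro n hn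
      simp only [Set.mem_iUnion]
      exact ⟨s n, ⟨n, hn, rfl⟩, rfl⟩
    exact (hf.biUnion fun k _ => hfin k).subset this
  obtain ⟨f, hf⟩ := split_infinite hsE
  have hf' : ∀ c, {n | n ∈ E ∧ f (s n) = c}.Infinite := by
    intro c hfi
    apply hf c
    apply (hfi.image s).subset
    rintro t ⟨⟨n, hn, rfl⟩, ht⟩
    exact ⟨n, ⟨hn, ht⟩, rfl⟩
  obtain ⟨r1, hr1⟩ := col_uncountable_fibre f hexc
  set α : Col := (f, r1) with hα
  have hα' : τ α ∉ I := hr1
  have hπ : ∀ c, ∃ c', {n | n ∈ {n | n ∈ E ∧ f (s n) = c} ∧ (τ α).1 n = c'}.Infinite :=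
    fun c => pigeon (hf' c) (τ α).1
  choose π hπ using hπ
  have hψ := hconv α hα'
  choose ψ hψ using hψ
  refine ⟨θ, π, ψ, ?_, ?_, ?_, ?_, ?_, ?_⟩
  · intro m m'
    refine tendsto_nhds_unique (hθl (m + m')) ?_
    refine ((hθl m).add (hθl m')).congr fun n => ?_
    rw [hθn]
    exact (Φ.θ_add _ _ _).symm
  · intro z m
    refine tendsto_nhds_unique (hθl (z • m)) ?_
    refine ((hθl m).const_smul z).congr fun n => ?_
    rw [hθn]
    exact (Φ.θ_smul _ _ _).symm
  · intro m m'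
    refine tendsto_nhds_unique (hθl (m * m')) ?_
    refine ((hθl m').mul (hθl m)).congr fun n => ?_
    rw [hθn]
    exact (Φ.θ_mul _ _ _).symm
  · intro m
    refine tendsto_nhds_unique (hθl (star m)) ?_
    refine ((continuous_star.tendsto _).comp (hθl m)).congr fun n => ?_
    rw [hθn]
    exact (Φ.θ_star _ _).symm
  · refine tendsto_nhds_unique (hθl 1) ?_
    refine tendsto_const_nhds.congr fun n => ?_
    rw [hθn]
    exact (Φ.θ_one _).symm
  · intro c m
    set Ec : Set ℕ := {n | n ∈ {n | n ∈ E ∧ f (s n) = c} ∧ (τ α).1 n = π c} with hEc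
    have hNBc : (cofinite ⊓ 𝓟 Ec : Filter ℕ).NeBot := cofinite_inf_principal_neBot_iff.mpr (hπ c)
    have hle : (cofinite ⊓ 𝓟 Ec : Filter ℕ) ≤ cofinite ⊓ 𝓟 E := by
      apply inf_le_inf_left
      apply principal_mono.mpr
      intro n hn
      exact hn.1.1
    have h1 : Tendsto (fun n => Ad (π c) (θn n (Ad' c m))) (cofinite ⊓ 𝓟 Ec)
        (𝓝 (Ad (π c) (θ (Ad' c m)))) :=
      ((Ad_continuous (π c)).tendsto _).comp ((hθl (Ad' c m)).mono_left hle)
    have h2 : Tendsto (fun n => Ad ((τ α).1 n) (θn n (Ad' (α.1 (s n)) m))) (cofinite ⊓ 𝓟 Ec)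
        (𝓝 (ψ m)) := (hψ m).mono_left inf_le_left
    refine tendsto_nhds_unique h1 (h2.congr' ?_)
    have hmem : Ec ∈ (cofinite ⊓ 𝓟 Ec : Filter ℕ) := mem_inf_of_right (mem_principal_self Ec)
    filter_upwards [hmem] with n hn
    have h3 : (τ α).1 n = π c := hn.2
    have h4 : α.1 (s n) = c := hn.1.2
    rw [h3, h4]

end Pool.Agent.Lib.MP_5c3535_an
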