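import Pool.Agent.Lib.MP_5c3535_an.Final

/-! The argument of `Normal`, `RowMap`, `ColMap`, `Limit` once more, for complex linear
anti-automorphisms that are not assumed to preserve the involution (nor to be continuous). -/

open scoped ENNReal Matrix.Norms.L2Operator
open Filter Topology

noncomputable section

namespace Pool.Agent.Lib.MP_5c3535_an

/-- An anti-automorphism of `A`. -/
structure AntiL where
  /-- the underlying map -/
  f : AT → AT
  map_add : ∀ a b, f (a + b) = f a + f b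
  map_mul : ∀ a b, f (a * b) = f b * f a
  map_smul : ∀ (z : ℂ) a, f (z • a) = z • f a
  inj : Function.Injective f
  surj : Function.Surjective f

variable (Φ : AntiL)

lemma AntiL.map_zero : Φ.f 0 = 0 := by
  have h := Φ.map_smul 0 0
  simpa using h

/-- Every atom is the image of an atom. -/
lemma AntiL.exists_atom (y : X) : ∃ x, Φ.f (D x 1) = D y 1 := by
  classical
  obtain ⟨p, hp⟩ := Φ.surj (D y 1)
  have hc : ∀ a : AT, p * a = a * p := by
    intro a
    apply Φ.inj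
    rw [Φ.map_mul, Φ.map_mul, hp, del_central]
  have hi : p * p = p := by
    apply Φ.inj
    rw [Φ.map_mul, hp, D_idem]
  have hne : p ≠ 0 := by
    rintro rfl
    rw [Φ.map_zero] at hp
    have h := congrArg (fun a => ev a y) hp
    simp only [ev_zero, ev_D, if_true] at h
    exact zero_ne_one h
  obtain ⟨x, hx⟩ : ∃ x, ev p x ≠ 0 := by
    by_contra hcon
    push Not at hcon
    apply hne
    apply ev_ext
    intro x
    rw [hcon x, ev_zero]
  have hx1 : ev p x = 1 := (central_val hc hi x).resolve_left hx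
  refine ⟨x, ?_⟩
  have h1 : p * D x 1 = D x 1 := by rw [mul_D, hx1, mul_one]
  have h2 : Φ.f (D x 1) = Φ.f (D x 1) * D y 1 := by
    conv_lhs => rw [← h1]
    rw [Φ.map_mul, hp]
  have hcx : ∀ a : AT, Φ.f (D x 1) * a = a * Φ.f (D x 1) := by
    intro a
    obtain ⟨b, rfl⟩ := Φ.surj a
    rw [← Φ.map_mul, ← Φ.map_mul, del_central]
  have hix : Φ.f (D x 1) * Φ.f (D x 1) = Φ.f (D x 1) := by
    rw [← Φ.map_mul, D_idem]
  rcases central_val hcx hix y with h3 | h3
  · exfalso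
    rw [mul_D, h3] at h2
    have h4 : Φ.f (D x 1) = Φ.f 0 := by
      rw [h2, Φ.map_zero]
      apply ev_ext
      intro z
      rw [ev_D, ev_zero]
      split_ifs <;> simp
    have h5 := Φ.inj h4
    have h6 := congrArg (fun a => ev a x) h5
    simp only [ev_zero, ev_D, if_true] at h6
    exact zero_ne_one h6.symm
  · rw [mul_D, h3, mul_one] at h2
    exact h2

/-- The point map. -/
def AntiL.χ (y : X) : X := (Φ.exists_atom y).choose

lemma AntiL.χ_spec (y : X) : Φ.f (D (Φ.χ y) 1) = D y 1 := (Φ.exists_atom y).choose_spec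

/-- The fibre maps. -/
def AntiL.θ (y : X) (m : B) : B := ev (Φ.f (D (Φ.χ y) m)) y

lemma AntiL.normal_form (a : AT) (y : X) : ev (Φ.f a) y = Φ.θ y (ev a (Φ.χ y)) := by
  have h1 : ev (Φ.f a) y = ev (D y 1 * Φ.f a) y := by
    rw [ev_mul, ev_D, if_pos rfl, one_mul]
  rw [h1, ← Φ.χ_spec y, ← Φ.map_mul, mul_D, mul_one]
  rfl

lemma AntiL.f_D (y : X) (m : B) : Φ.f (D (Φ.χ y) m) = D y (Φ.θ y m) := by
  classical
  have h : D (Φ.χ y) m = D (Φ.χ y) m * D (Φ.χ y) 1 := by
    rw [mul_D, ev_D, if_pos rfl, mul_one]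
  rw [h, Φ.map_mul, Φ.χ_spec, D_mul, one_mul]
  rfl

lemma AntiL.χ_inj : Function.Injective Φ.χ := by
  classical
  intro y y' h
  have h1 := Φ.χ_spec y
  rw [h, Φ.χ_spec y'] at h1
  have h2 := congrArg (fun a => ev a y) h1
  simp only [ev_D, if_true] at h2
  by_contra hne
  rw [if_neg hne] at h2
  exact zero_ne_one h2

lemma AntiL.θ_add (y : X) (m m' : B) : Φ.θ y (m + m') = Φ.θ y m + Φ.θ y m' := by
  unfold AntiL.θ
  rw [D_add, Φ.map_add, ev_add]

lemma AntiL.θ_smul (y : X) (z : ℂ) (m : B) : Φ.θ y (z • m) = z • Φ.θ y m := by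
  unfold AntiL.θ
  rw [D_smul, Φ.map_smul, ev_smul]

lemma AntiL.θ_mul (y : X) (m m' : B) : Φ.θ y (m * m') = Φ.θ y m' * Φ.θ y m := by
  have h : D (Φ.χ y) (m * m') = D (Φ.χ y) m * D (Φ.χ y) m' := by
    rw [D_mul, ev_D, if_pos rfl]
  unfold AntiL.θ
  rw [h, Φ.map_mul, ev_mul]

lemma AntiL.θ_one (y : X) : Φ.θ y 1 = 1 := by
  unfold AntiL.θ
  rw [Φ.χ_spec, ev_D, if_pos rfl]

lemma AntiL.θ_zero (y : X) : Φ.θ y 0 = 0 := by
  have h := Φ.θ_smul y 0 0
  simpa using h

lemma AntiL.χ_surj : Function.Surjective Φ.χ := by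
  classical
  intro x
  have hne : Φ.f (D x 1) ≠ 0 := by
    intro h
    have h4 : Φ.f (D x 1) = Φ.f 0 := by rw [h, Φ.map_zero]
    have h5 := Φ.inj h4
    have h6 := congrArg (fun a => ev a x) h5
    simp only [ev_zero, ev_D, if_true] at h6
    exact zero_ne_one h6.symm
  obtain ⟨y, hy⟩ : ∃ y, ev (Φ.f (D x 1)) y ≠ 0 := by
    by_contra hcon
    push Not at hcon
    apply hne
    apply ev_ext
    intro x
    rw [hcon x, ev_zero]
  refine ⟨y, ?_⟩
  rw [Φ.normal_form, ev_D] at hy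
  by_contra hcon
  rw [if_neg hcon, Φ.θ_zero] at hy
  exact hy rfl



lemma AntiL.f_U (k : ℕ) (m : B) (y : X) :
    ev (Φ.f (U k m)) y = if (Φ.χ y).1 = k then Φ.θ y m else 0 := by
  rw [Φ.normal_form, ev_U]
  split_ifs with h
  · rfl
  · exact Φ.θ_zero y

lemma AntiL.f_V (α : Col) (m : B) (y : X) : ev (Φ.f (V α m)) y =
    open Classical in if (Φ.χ y).2 = α then Φ.θ y (Ad' (α.1 (Φ.χ y).1) m) else 0 := by
  rw [Φ.normal_form, ev_V]
  split_ifs with h
  · rfl
  · exact Φ.θ_zero y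

/-- Off a countable set of columns the row index of `χ (n, α)` only depends on `n`. -/
lemma AntiL.row_map : ∃ (I : Set Col) (s : ℕ → ℕ), I.Countable ∧
    (∀ n, ∀ α, α ∉ I → (Φ.χ (n, α)).1 = s n) ∧
    (∀ n, ∀ α, α ∉ I → ∀ α', α' ∉ I → ∀ m, Φ.θ (n, α) m = Φ.θ (n, α') m) := by
  classical
  have h1 : ∀ k : ℕ, ∀ i j : Fin 3, ∃ I : Set Col, I.Countable ∧ ∀ n, ∀ α, α ∉ I → ∀ α', α' ∉ I →
      ev (Φ.f (U k (Matrix.single i j 1))) (n, α) = ev (Φ.f (U k (Matrix.single i j 1))) (n, α') :=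
    fun k i j => ev_row_countable _
  have h2 : ∀ k : ℕ, ∃ I : Set Col, I.Countable ∧ ∀ n, ∀ α, α ∉ I → ∀ α', α' ∉ I →
      ev (Φ.f (U k 1)) (n, α) = ev (Φ.f (U k 1)) (n, α') :=
    fun k => ev_row_countable _
  choose I1 hI1 hI1' using h1
  choose I2 hI2 hI2' using h2
  set I : Set Col := (⋃ k, ⋃ i, ⋃ j, I1 k i j) ∪ ⋃ k, I2 k with hI
  have hIc : I.Countable := by
    apply Set.Countable.union
    · exact Set.countable_iUnion fun k => Set.countable_iUnion fun i =>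
        Set.countable_iUnion fun j => hI1 k i j
    · exact Set.countable_iUnion fun k => hI2 k
  have hsub1 : ∀ k i j, ∀ α, α ∉ I → α ∉ I1 k i j := by
    intro k i j α hα h
    apply hα
    left
    exact Set.mem_iUnion.mpr ⟨k, Set.mem_iUnion.mpr ⟨i, Set.mem_iUnion.mpr ⟨j, h⟩⟩⟩
  have hsub2 : ∀ k, ∀ α, α ∉ I → α ∉ I2 k := by
    intro k α hα h
    apply hα
    right
    exact Set.mem_iUnion.mpr ⟨k, h⟩
  -- row index
  have hrow : ∀ n, ∀ α, α ∉ I → ∀ α', α' ∉ I → (Φ.χ (n, α)).1 = (Φ.χ (n, α')).1 := by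
    intro n α hα α' hα'
    have h := hI2' (Φ.χ (n, α)).1 n α (hsub2 _ α hα) α' (hsub2 _ α' hα')
    rw [Φ.f_U, Φ.f_U, if_pos rfl, Φ.θ_one, Φ.θ_one] at h
    by_contra hne
    rw [if_neg (fun h' => hne h'.symm)] at h
    exact one_ne_zero h
  have hunc : ∃ α, α ∉ I := by
    by_contra hcon
    push Not at hcon
    have : (Set.univ : Set Col).Countable := hIc.mono fun α _ => hcon α
    have h3 : Countable Col := Set.countable_univ_iff.mp this
    have h4 : Countable ℝ := (Prod.mk_right_injective (fun _ : ℕ => (0 : Fin 3))).countable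
    exact not_countable h4
  obtain ⟨α0, hα0⟩ := hunc
  refine ⟨I, fun n => (Φ.χ (n, α0)).1, hIc, fun n α hα => hrow n α hα α0 hα0, ?_⟩
  intro n α hα α' hα' m
  have hsingle : ∀ i j, Φ.θ (n, α) (Matrix.single i j 1) = Φ.θ (n, α') (Matrix.single i j 1) := by
    intro i j
    have h := hI1' (Φ.χ (n, α)).1 i j n α (hsub1 _ _ _ α hα) α' (hsub1 _ _ _ α' hα')
    rw [Φ.f_U, Φ.f_U, if_pos rfl, if_pos (hrow n α' hα' α hα)] at h
    exact h
  have hlin : ∀ y, ∃ L : B →ₗ[ℂ] B, ∀ m, L m = Φ.θ y m := fun y =>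
    ⟨{ toFun := Φ.θ y, map_add' := Φ.θ_add y, map_smul' := Φ.θ_smul y }, fun m => rfl⟩
  obtain ⟨L, hL⟩ := hlin (n, α)
  obtain ⟨L', hL'⟩ := hlin (n, α')
  have hLL : L = L' := by
    apply Matrix.ext_linearMap
    intro i j
    ext z
    simp only [LinearMap.comp_apply]
    have e : (Matrix.singleLinearMap ℂ i j) 1 = (Matrix.single i j 1 : B) := rfl
    rw [e, hL, hL', hsingle]
  rw [← hL, ← hL', hLL]



lemma AntiL.row_finite {I : Set Col} {s : ℕ → ℕ} (hI : I.Countable)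
    (hs : ∀ n, ∀ α, α ∉ I → (Φ.χ (n, α)).1 = s n) (k : ℕ) : {n | s n = k}.Finite := by
  classical
  obtain ⟨F, G, h1, -, -⟩ := ev_approx (Φ.f (U k 1)) (ε := 1 / 2) (by norm_num)
  obtain ⟨r, hr⟩ := col_uncountable_fibre (fun _ => 0) (hI.union G.countable_toSet)
  simp only [Set.mem_union, not_or, Finset.mem_coe] at hr
  apply F.finite_toSet.subset
  intro n hn
  by_contra hnF
  have h := h1 n hnF _ hr.2
  rw [Φ.f_U, if_pos ((hs n _ hr.1).trans hn), Φ.θ_one, norm_one_B] at h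
  norm_num at h

lemma AntiL.col_exists (α : Col) : ∃ β : Col, ∃ F : Set ℕ, F.Finite ∧ ∀ n, n ∉ F →
    (Φ.χ (n, β)).2 = α := by
  classical
  obtain ⟨F, G, h1, h2, h3⟩ := ev_approx (Φ.f (V α 1)) (ε := 1 / 2) (by norm_num)
  have hval : ∀ y, ev (Φ.f (V α 1)) y = if (Φ.χ y).2 = α then 1 else 0 := by
    intro y
    rw [Φ.f_V]
    split_ifs with h
    · rw [Ad'_one, Φ.θ_one]
    · rfl
  -- the set of points mapped to the column `α`
  set Y : Set X := {y | (Φ.χ y).2 = α} with hY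
  have hYc : Y.Countable := by
    have hinj : Set.InjOn (fun y => (Φ.χ y).1) Y := by
      intro y hy y' hy' h
      apply Φ.χ_inj
      exact Prod.ext h (by rw [hY] at hy hy'; exact hy.trans hy'.symm)
    exact Set.countable_of_injective_of_countable_image hinj (Set.to_countable _)
  have hYinf : Y.Infinite := by
    have hsurj : ∀ k : ℕ, ∃ y ∈ Y, (Φ.χ y).1 = k := by
      intro k
      obtain ⟨y, hy⟩ := Φ.χ_surj (k, α)
      exact ⟨y, by rw [hY]; show (Φ.χ y).2 = α; rw [hy], by rw [hy]⟩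
    intro hfin
    have himg : ((fun y => (Φ.χ y).1) '' Y).Finite := hfin.image _
    have huniv : ((fun y => (Φ.χ y).1) '' Y) = Set.univ := by
      ext k
      simp only [Set.mem_image, Set.mem_univ, iff_true]
      obtain ⟨y, hy, hk⟩ := hsurj k
      exact ⟨y, hy, hk⟩
    rw [huniv] at himg
    exact Set.infinite_univ himg
  -- each row meets `Y` only inside `G`
  have hrow : ∀ n, ∀ β, β ∉ G → (n, β) ∉ Y := by
    intro n β hβ hmem
    -- then all columns outside `G` are in `Y`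
    have hall : ∀ β', β' ∉ G → (n, β') ∈ Y := by
      intro β' hβ'
      have h := h2 n β hβ β' hβ'
      rw [hval, hval, if_pos (show (Φ.χ (n, β)).2 = α from hmem)] at h
      by_contra hne
      rw [if_neg (show ¬ (Φ.χ (n, β')).2 = α from hne), sub_zero, norm_one_B] at h
      norm_num at h
    have hc : ((fun β' : Col => ((n, β') : X)) ⁻¹' Y).Countable :=
      hYc.preimage (Prod.mk_right_injective n)
    obtain ⟨r, hr⟩ := col_uncountable_fibre (fun _ => 0) (hc.union G.countable_toSet)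
    simp only [Set.mem_union, not_or, Finset.mem_coe] at hr
    exact hr.1 (hall _ hr.2)
  -- pigeonhole
  have hsub : Y ⊆ ⋃ β ∈ G, {y | y ∈ Y ∧ y.2 = β} := by
    intro y hy
    by_cases hβ : y.2 ∈ G
    · simp only [Set.mem_iUnion]
      exact ⟨y.2, hβ, hy, rfl⟩
    · exact absurd hy (hrow y.1 y.2 hβ)
  obtain ⟨β, hβ, hβinf⟩ : ∃ β ∈ G, {y | y ∈ Y ∧ y.2 = β}.Infinite := by
    by_contra hcon
    push Not at hcon
    apply hYinf
    apply Set.Finite.subset _ hsub
    apply Set.Finite.biUnion G.finite_toSet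
    intro β hβ
    exact hcon β hβ
  have hNinf : {n | (n, β) ∈ Y}.Infinite := by
    intro hfin
    apply hβinf
    apply (hfin.image (fun n => ((n, β) : X))).subset
    rintro ⟨n, β'⟩ ⟨hy, hb⟩
    simp only at hb
    subst hb
    exact ⟨n, hy, rfl⟩
  refine ⟨β, F, F.finite_toSet, ?_⟩
  obtain ⟨n0, hn0, hn0F⟩ := hNinf.exists_notMem_finset F
  intro n hn
  have h := h3 β n hn n0 hn0F
  rw [hval, hval, if_pos (show (Φ.χ (n0, β)).2 = α from hn0), Ad_one] at h
  by_contra hne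
  rw [if_neg hne, Ad_zero, zero_sub, norm_neg, norm_one_B] at h
  norm_num at h

/-- The limiting relation. -/
theorem AntiL.limit (Φ : AntiL) : ∃ (θ : B → B) (π : Fin 3 → Fin 3) (ψ : B → B),
    (∀ m m', θ (m + m') = θ m + θ m') ∧ (∀ (z : ℂ) m, θ (z • m) = z • θ m) ∧
    (∀ m m', θ (m * m') = θ m' * θ m) ∧ θ 1 = 1 ∧
    (∀ c m, Ad (π c) (θ (Ad' c m)) = ψ m) := by
  classical
  obtain ⟨I, s, hI, hs, hθ⟩ := Φ.row_map
  have hfin := Φ.row_finite hI hs
  have hcol := Φ.col_exists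
  choose τ Fτ hFτ hτ using hcol
  have hτinj : Function.Injective τ := by
    intro α α' h
    obtain ⟨n, hn⟩ := ((hFτ α).union (hFτ α')).infinite_compl.nonempty
    simp only [Set.mem_compl_iff, Set.mem_union, not_or] at hn
    have h1 := hτ α n hn.1
    have h2 := hτ α' n hn.2
    rw [h] at h1
    exact h1.symm.trans h2
  have hexc : {α | τ α ∈ I}.Countable := hI.preimage hτinj
  obtain ⟨r, hr⟩ := col_uncountable_fibre (fun _ => 0) hI
  set βs : Col := (fun _ => 0, r) with hβs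
  set θn : ℕ → B → B := fun n m => Φ.θ (n, βs) m with hθn
  have hconv : ∀ α, τ α ∉ I → ∀ m, ∃ l : B,
      Tendsto (fun n => Ad ((τ α).1 n) (θn n (Ad' (α.1 (s n)) m))) cofinite (𝓝 l) := by
    intro α hα m
    obtain ⟨l, hl⟩ := ev_tendsto_col (Φ.f (V α m)) (τ α)
    refine ⟨l, hl.congr' ?_⟩
    have hmem : (Fτ α)ᶜ ∈ (cofinite : Filter ℕ) := (hFτ α).compl_mem_cofinite
    filter_upwards [hmem] with n hn
    rw [Φ.f_V, if_pos (hτ α n hn), hs n (τ α) hα, hθn]
    simp only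
    rw [hθ n (τ α) hα βs hr]
  -- first column: the constant sequence
  obtain ⟨r0, hr0⟩ := col_uncountable_fibre (fun _ => 0) hexc
  set α0 : Col := (fun _ => 0, r0) with hα0
  have hα0' : τ α0 ∉ I := hr0
  obtain ⟨c0, hE⟩ := pigeon (E := Set.univ) Set.infinite_univ (τ α0).1
  set E : Set ℕ := {n | n ∈ Set.univ ∧ (τ α0).1 n = c0} with hEdef
  have hNB : (cofinite ⊓ 𝓟 E : Filter ℕ).NeBot := cofinite_inf_principal_neBot_iff.mpr hE
  have hθlim : ∀ m, ∃ l : B, Tendsto (fun n => θn n m) (cofinite ⊓ 𝓟 E) (𝓝 l) := by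
    intro m
    obtain ⟨l, hl⟩ := hconv α0 hα0' m
    have h1 := ((Ad'_continuous c0).tendsto l).comp (hl.mono_left inf_le_left :
      Tendsto _ (cofinite ⊓ 𝓟 E) (𝓝 l))
    refine ⟨Ad' c0 l, h1.congr' ?_⟩
    have hmem : E ∈ (cofinite ⊓ 𝓟 E : Filter ℕ) := mem_inf_of_right (mem_principal_self E)
    filter_upwards [hmem] with n hn
    simp only [Function.comp]
    have h2 : (τ α0).1 n = c0 := hn.2
    have h3 : α0.1 (s n) = 0 := rfl
    rw [h2, h3, Ad'_zero_idx, Ad'_Ad]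
  choose θ hθl using hθlim
  -- second column
  have hsE : (s '' E).Infinite := by
    intro hf
    apply hE
    have : E ⊆ ⋃ k ∈ s '' E, {n | s n = k} := by
      intro n hn
      simp only [Set.mem_iUnion]
      exact ⟨s n, ⟨n, hn, rfl⟩, rfl⟩
    exact (hf.biUnion fun k _ => hfin k).subset this
  obtain ⟨f, hf⟩ := split_infinite hsE
  have hf' : ∀ c, {n | n ∈ E ∧ f (s n) = c}.Infinite := by
    intro c hfi
    apply hf c
    apply (hfi.image s).subset
    rintro t ⟨⟨n, hn, rfl⟩, ht⟩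
    exact ⟨n, ⟨hn, ht⟩, rfl⟩
  obtain ⟨r1, hr1⟩ := col_uncountable_fibre f hexc
  set α : Col := (f, r1) with hα
  have hα' : τ α ∉ I := hr1
  have hπ : ∀ c, ∃ c', {n | n ∈ {n | n ∈ E ∧ f (s n) = c} ∧ (τ α).1 n = c'}.Infinite :=
    fun c => pigeon (hf' c) (τ α).1
  choose π hπ using hπ
  have hψ := hconv α hα'
  choose ψ hψ using hψ
  refine ⟨θ, π, ψ, ?_, ?_, ?_, ?_, ?_⟩
  · intro m m'
    refine tendsto_nhds_unique (hθl (m + m')) ?_
    refine ((hθl m).add (hθl m')).congr fun n => ?_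
    rw [hθn]
    exact (Φ.θ_add _ _ _).symm
  · intro z m
    refine tendsto_nhds_unique (hθl (z • m)) ?_
    refine ((hθl m).const_smul z).congr fun n => ?_
    rw [hθn]
    exact (Φ.θ_smul _ _ _).symm
  · intro m m'
    refine tendsto_nhds_unique (hθl (m * m')) ?_
    refine ((hθl m').mul (hθl m)).congr fun n => ?_
    rw [hθn]
    exact (Φ.θ_mul _ _ _).symm
  · refine tendsto_nhds_unique (hθl 1) ?_
    refine tendsto_const_nhds.congr fun n => ?_
    rw [hθn]
    exact (Φ.θ_one _).symm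
  · intro c m
    set Ec : Set ℕ := {n | n ∈ {n | n ∈ E ∧ f (s n) = c} ∧ (τ α).1 n = π c} with hEc
    have hNBc : (cofinite ⊓ 𝓟 Ec : Filter ℕ).NeBot := cofinite_inf_principal_neBot_iff.mpr (hπ c)
    have hle : (cofinite ⊓ 𝓟 Ec : Filter ℕ) ≤ cofinite ⊓ 𝓟 E := by
      apply inf_le_inf_left
      apply principal_mono.mpr
      intro n hn
      exact hn.1.1
    have h1 : Tendsto (fun n => Ad (π c) (θn n (Ad' c m))) (cofinite ⊓ 𝓟 Ec)
        (𝓝 (Ad (π c) (θ (Ad' c m)))) :=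
      ((Ad_continuous (π c)).tendsto _).comp ((hθl (Ad' c m)).mono_left hle)
    have h2 : Tendsto (fun n => Ad ((τ α).1 n) (θn n (Ad' (α.1 (s n)) m))) (cofinite ⊓ 𝓟 Ec)
        (𝓝 (ψ m)) := (hψ m).mono_left inf_le_left
    refine tendsto_nhds_unique h1 (h2.congr' ?_)
    have hmem : Ec ∈ (cofinite ⊓ 𝓟 Ec : Filter ℕ) := mem_inf_of_right (mem_principal_self Ec)
    filter_upwards [hmem] with n hn
    have h3 : (τ α).1 n = π c := hn.2
    have h4 : α.1 (s n) = c := hn.1.2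
    rw [h3, h4]


theorem no_antiL (Φ : AntiL) : False := by
  obtain ⟨θ, π, ψ, h1, h2, h3, h5, h6⟩ := Φ.limit
  exact no_limit θ π ψ h1 h2 h3 h5 h6

end Pool.Agent.Lib.MP_5c3535_an
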