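import Pool.Agent.Lib.MP_5c3535_an.Alg

open scoped ENNReal Matrix.Norms.L2Operator
open Filter Topology

noncomputable section

namespace Pool.Agent.Lib.MP_5c3535_an

lemma central_scalar {c : B} (hc : ∀ m : B, c * m = m * c) : ∃ z : ℂ, c = z • (1 : B) := by
  have h : c ∈ Set.range (Matrix.scalar (Fin 3)) := by
    apply Matrix.mem_range_scalar_of_commute_single
    intro i j _
    exact (hc _).symm
  obtain ⟨z, hz⟩ := h
  refine ⟨z, ?_⟩
  rw [← hz, Matrix.scalar_apply, Matrix.smul_one_eq_diagonal]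

lemma central_idem {c : B} (hc : ∀ m : B, c * m = m * c) (hi : c * c = c) : c = 0 ∨ c = 1 := by
  obtain ⟨z, rfl⟩ := central_scalar hc
  have h : z * z = z := by
    have h1 := congrFun (congrFun hi 0) 0
    simpa only [smul_mul_assoc, mul_smul_comm, one_mul, Matrix.smul_apply, Matrix.one_apply_eq,
      smul_eq_mul, mul_one] using h1
  have h2 : z * (z - 1) = 0 := by rw [mul_sub, h, mul_one, sub_self]
  rcases mul_eq_zero.mp h2 with h3 | h3
  · left; rw [h3, zero_smul]
  · right; rw [sub_eq_zero.mp h3, one_smul]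

/-- The C*-algebra as a type. -/
def AT : Type := A

instance instAT : NonUnitalCStarAlgebra AT := NonUnitalStarSubalgebra.nonUnitalCStarAlgebra A

/-- Elements of `A` as subtypes. -/
def D (x : X) (m : B) : AT := (⟨del x m, del_mem x m⟩ : A)
/-- Row elements. -/
def U (k : ℕ) (m : B) : AT := (⟨eU k m, eU_mem k m⟩ : A)
/-- Column elements. -/
def V (α : Col) (m : B) : AT := (⟨eV α m, eV_mem α m⟩ : A)

/-- Evaluation. -/
def ev (a : AT) (x : X) : B := (a : A).1 x

lemma ev_ext {a b : AT} (h : ∀ x, ev a x = ev b x) : a = b := by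
  apply Subtype.ext
  apply lp.ext
  funext x
  exact h x

lemma ev_mul (a b : AT) (x : X) : ev (a * b) x = ev a x * ev b x := by
  have h : (a * b : AT) = (⟨a.1 * b.1, A.mul_mem a.2 b.2⟩ : A) := rfl
  rw [h]
  unfold ev
  simp only [lp.infty_coeFn_mul, Pi.mul_apply]

lemma ev_add (a b : AT) (x : X) : ev (a + b) x = ev a x + ev b x := by
  have h : (a + b : AT) = (⟨a.1 + b.1, A.add_mem a.2 b.2⟩ : A) := rfl
  rw [h]
  unfold ev
  simp only [lp.coeFn_add, Pi.add_apply]

lemma ev_smul (z : ℂ) (a : AT) (x : X) : ev (z • a) x = z • ev a x := by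
  have h : (z • a : AT) = (⟨z • a.1, SMulMemClass.smul_mem z a.2⟩ : A) := rfl
  rw [h]
  unfold ev
  simp only [lp.coeFn_smul, Pi.smul_apply]

lemma ev_star (a : AT) (x : X) : ev (star a) x = star (ev a x) := by
  have h : (star a : AT) = (⟨star a.1, star_mem a.2⟩ : A) := rfl
  rw [h]
  unfold ev
  simp only [lp.coeFn_star, Pi.star_apply]

lemma ev_zero (x : X) : ev 0 x = 0 := by
  have h : (0 : AT) = (⟨0, A.zero_mem⟩ : A) := rfl
  rw [h]
  unfold ev
  simp only [lp.coeFn_zero, Pi.zero_apply]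

open Classical in
lemma ev_D (x : X) (m : B) (y : X) : ev (D x m) y = if y = x then m else 0 := rfl

open Classical in
lemma ev_U (k : ℕ) (m : B) (y : X) : ev (U k m) y = if y.1 = k then m else 0 := rfl

open Classical in
lemma ev_V (α : Col) (m : B) (y : X) : ev (V α m) y = if y.2 = α then Ad' (α.1 y.1) m else 0 := rfl

lemma D_mul (x : X) (m : B) (a : AT) : D x m * a = D x (m * ev a x) := by
  classical
  apply ev_ext
  intro y
  rw [ev_mul, ev_D, ev_D]
  split_ifs with h
  · rw [h]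
  · simp

lemma mul_D (x : X) (m : B) (a : AT) : a * D x m = D x (ev a x * m) := by
  classical
  apply ev_ext
  intro y
  rw [ev_mul, ev_D, ev_D]
  split_ifs with h
  · rw [h]
  · simp

lemma D_inj {x : X} {m m' : B} (h : D x m = D x m') : m = m' := by
  have := congrArg (fun a => ev a x) h
  simpa [ev_D] using this

lemma D_star (x : X) (m : B) : star (D x m) = D x (star m) := by
  classical
  apply ev_ext
  intro y
  rw [ev_star, ev_D, ev_D]
  split_ifs <;> simp

lemma D_add (x : X) (m m' : B) : D x (m + m') = D x m + D x m' := by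
  classical
  apply ev_ext
  intro y
  rw [ev_add, ev_D, ev_D, ev_D]
  split_ifs <;> simp

lemma D_smul (x : X) (z : ℂ) (m : B) : D x (z • m) = z • D x m := by
  classical
  apply ev_ext
  intro y
  rw [ev_smul, ev_D, ev_D]
  split_ifs <;> simp

/-- A central idempotent of `A` takes values in `{0, 1}`. -/
lemma central_val {p : AT} (hc : ∀ a : AT, p * a = a * p) (hi : p * p = p) (x : X) :
    ev p x = 0 ∨ ev p x = 1 := by
  apply central_idem
  · intro m
    have h := hc (D x m)
    rw [D_mul, mul_D] at h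
    exact D_inj h
  · rw [← ev_mul, hi]

/-- An anti-automorphism of `A`. -/
structure Anti where
  /-- the underlying map -/
  f : AT → AT
  map_add : ∀ a b, f (a + b) = f a + f b
  map_mul : ∀ a b, f (a * b) = f b * f a
  map_star : ∀ a, f (star a) = star (f a)
  map_smul : ∀ (z : ℂ) a, f (z • a) = z • f a
  inj : Function.Injective f
  surj : Function.Surjective f

variable (Φ : Anti)

lemma Anti.map_zero : Φ.f 0 = 0 := by
  have h := Φ.map_smul 0 0
  simpa using h

lemma del_central (x : X) (a : AT) : D x 1 * a = a * D x 1 := by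
  rw [D_mul, mul_D]; simp

lemma D_idem (x : X) : D x 1 * D x 1 = D x 1 := by
  rw [D_mul]; simp [ev_D]

/-- Every atom is the image of an atom. -/
lemma Anti.exists_atom (y : X) : ∃ x, Φ.f (D x 1) = D y 1 := by
  classical
  obtain ⟨p, hp⟩ := Φ.surj (D y 1)
  have hc : ∀ a : AT, p * a = a * p := by
    intro a
    apply Φ.inj
    rw [Φ.map_mul, Φ.map_mul, hp, del_central]
  have hi : p * p = p := by
    apply Φ.inj
    rw [Φ.map_mul, hp, D_idem]
  have hne : p ≠ 0 := by
    rintro rfl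
    rw [Φ.map_zero] at hp
    have h := congrArg (fun a => ev a y) hp
    simp only [ev_zero, ev_D, if_true] at h
    exact zero_ne_one h
  obtain ⟨x, hx⟩ : ∃ x, ev p x ≠ 0 := by
    by_contra hcon
    push Not at hcon
    apply hne
    apply ev_ext
    intro x
    rw [hcon x, ev_zero]
  have hx1 : ev p x = 1 := (central_val hc hi x).resolve_left hx
  refine ⟨x, ?_⟩
  have h1 : p * D x 1 = D x 1 := by rw [mul_D, hx1, mul_one]
  have h2 : Φ.f (D x 1) = Φ.f (D x 1) * D y 1 := by
    conv_lhs => rw [← h1]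
    rw [Φ.map_mul, hp]
  have hcx : ∀ a : AT, Φ.f (D x 1) * a = a * Φ.f (D x 1) := by
    intro a
    obtain ⟨b, rfl⟩ := Φ.surj a
    rw [← Φ.map_mul, ← Φ.map_mul, del_central]
  have hix : Φ.f (D x 1) * Φ.f (D x 1) = Φ.f (D x 1) := by
    rw [← Φ.map_mul, D_idem]
  rcases central_val hcx hix y with h3 | h3
  · exfalso
    rw [mul_D, h3] at h2
    have h4 : Φ.f (D x 1) = Φ.f 0 := by
      rw [h2, Φ.map_zero]
      apply ev_ext
      intro z
      rw [ev_D, ev_zero]
      split_ifs <;> simp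
    have h5 := Φ.inj h4
    have h6 := congrArg (fun a => ev a x) h5
    simp only [ev_zero, ev_D, if_true] at h6
    exact zero_ne_one h6.symm
  · rw [mul_D, h3, mul_one] at h2
    exact h2

/-- The point map. -/
def Anti.χ (y : X) : X := (Φ.exists_atom y).choose

lemma Anti.χ_spec (y : X) : Φ.f (D (Φ.χ y) 1) = D y 1 := (Φ.exists_atom y).choose_spec

/-- The fibre maps. -/
def Anti.θ (y : X) (m : B) : B := ev (Φ.f (D (Φ.χ y) m)) y

lemma Anti.normal_form (a : AT) (y : X) : ev (Φ.f a) y = Φ.θ y (ev a (Φ.χ y)) := by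
  have h1 : ev (Φ.f a) y = ev (D y 1 * Φ.f a) y := by
    rw [ev_mul, ev_D, if_pos rfl, one_mul]
  rw [h1, ← Φ.χ_spec y, ← Φ.map_mul, mul_D, mul_one]
  rfl

lemma Anti.f_D (y : X) (m : B) : Φ.f (D (Φ.χ y) m) = D y (Φ.θ y m) := by
  classical
  have h : D (Φ.χ y) m = D (Φ.χ y) m * D (Φ.χ y) 1 := by
    rw [mul_D, ev_D, if_pos rfl, mul_one]
  rw [h, Φ.map_mul, Φ.χ_spec, D_mul, one_mul]
  rfl

lemma Anti.χ_inj : Function.Injective Φ.χ := by
  classical
  intro y y' h
  have h1 := Φ.χ_spec y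
  rw [h, Φ.χ_spec y'] at h1
  have h2 := congrArg (fun a => ev a y) h1
  simp only [ev_D, if_true] at h2
  by_contra hne
  rw [if_neg hne] at h2
  exact zero_ne_one h2

lemma Anti.θ_add (y : X) (m m' : B) : Φ.θ y (m + m') = Φ.θ y m + Φ.θ y m' := by
  unfold Anti.θ
  rw [D_add, Φ.map_add, ev_add]

lemma Anti.θ_smul (y : X) (z : ℂ) (m : B) : Φ.θ y (z • m) = z • Φ.θ y m := by
  unfold Anti.θ
  rw [D_smul, Φ.map_smul, ev_smul]

lemma Anti.θ_star (y : X) (m : B) : Φ.θ y (star m) = star (Φ.θ y m) := by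
  unfold Anti.θ
  rw [← D_star, Φ.map_star, ev_star]

lemma Anti.θ_mul (y : X) (m m' : B) : Φ.θ y (m * m') = Φ.θ y m' * Φ.θ y m := by
  have h : D (Φ.χ y) (m * m') = D (Φ.χ y) m * D (Φ.χ y) m' := by
    rw [D_mul, ev_D, if_pos rfl]
  unfold Anti.θ
  rw [h, Φ.map_mul, ev_mul]

lemma Anti.θ_one (y : X) : Φ.θ y 1 = 1 := by
  unfold Anti.θ
  rw [Φ.χ_spec, ev_D, if_pos rfl]

lemma Anti.θ_zero (y : X) : Φ.θ y 0 = 0 := by
  have h := Φ.θ_smul y 0 0
  simpa using h

lemma Anti.χ_surj : Function.Surjective Φ.χ := by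
  classical
  intro x
  have hne : Φ.f (D x 1) ≠ 0 := by
    intro h
    have h4 : Φ.f (D x 1) = Φ.f 0 := by rw [h, Φ.map_zero]
    have h5 := Φ.inj h4
    have h6 := congrArg (fun a => ev a x) h5
    simp only [ev_zero, ev_D, if_true] at h6
    exact zero_ne_one h6.symm
  obtain ⟨y, hy⟩ : ∃ y, ev (Φ.f (D x 1)) y ≠ 0 := by
    by_contra hcon
    push Not at hcon
    apply hne
    apply ev_ext
    intro x
    rw [hcon x, ev_zero]
  refine ⟨y, ?_⟩
  rw [Φ.normal_form, ev_D] at hy
  by_contra hcon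
  rw [if_neg hcon, Φ.θ_zero] at hy
  exact hy rfl

end Pool.Agent.Lib.MP_5c3535_an
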