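import Pool.Agent.Lib.MP_5c3535_an.Normal

open scoped ENNReal Matrix.Norms.L2Operator
open Filter Topology

noncomputable section

namespace Pool.Agent.Lib.MP_5c3535_an

lemma norm_one_B : ‖(1 : B)‖ = 1 := CStarRing.norm_one

lemma ev_approx (a : AT) {ε : ℝ} (hε : 0 < ε) :
    ∃ (F : Finset ℕ) (G : Finset Col), (∀ n, n ∉ F → ∀ α, α ∉ G → ‖ev a (n, α)‖ ≤ ε) ∧
      (∀ n, ∀ α, α ∉ G → ∀ α', α' ∉ G → ‖ev a (n, α) - ev a (n, α')‖ ≤ ε) ∧
      (∀ α : Col, ∀ n, n ∉ F → ∀ n', n' ∉ F →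
        ‖Ad (α.1 n) (ev a (n, α)) - Ad (α.1 n') (ev a (n', α))‖ ≤ ε) :=
  approx (a : A).2 hε

lemma ev_tendsto_col (a : AT) (α : Col) :
    ∃ l : B, Tendsto (fun n => Ad (α.1 n) (ev a (n, α))) cofinite (𝓝 l) :=
  tendsto_col (a : A).2 α

lemma ev_row_countable (a : AT) :
    ∃ I : Set Col, I.Countable ∧ ∀ n, ∀ α, α ∉ I → ∀ α', α' ∉ I → ev a (n, α) = ev a (n, α') :=
  row_countable (a : A).2

variable (Φ : Anti)

lemma Anti.f_U (k : ℕ) (m : B) (y : X) :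
    ev (Φ.f (U k m)) y = if (Φ.χ y).1 = k then Φ.θ y m else 0 := by
  rw [Φ.normal_form, ev_U]
  split_ifs with h
  · rfl
  · exact Φ.θ_zero y

lemma Anti.f_V (α : Col) (m : B) (y : X) : ev (Φ.f (V α m)) y =
    open Classical in if (Φ.χ y).2 = α then Φ.θ y (Ad' (α.1 (Φ.χ y).1) m) else 0 := by
  rw [Φ.normal_form, ev_V]
  split_ifs with h
  · rfl
  · exact Φ.θ_zero y

/-- Off a countable set of columns the row index of `χ (n, α)` only depends on `n`. -/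
lemma Anti.row_map : ∃ (I : Set Col) (s : ℕ → ℕ), I.Countable ∧
    (∀ n, ∀ α, α ∉ I → (Φ.χ (n, α)).1 = s n) ∧
    (∀ n, ∀ α, α ∉ I → ∀ α', α' ∉ I → ∀ m, Φ.θ (n, α) m = Φ.θ (n, α') m) := by
  classical
  have h1 : ∀ k : ℕ, ∀ i j : Fin 3, ∃ I : Set Col, I.Countable ∧ ∀ n, ∀ α, α ∉ I → ∀ α', α' ∉ I →
      ev (Φ.f (U k (Matrix.single i j 1))) (n, α) = ev (Φ.f (U k (Matrix.single i j 1))) (n, α') :=
    fun k i j => ev_row_countable _
  have h2 : ∀ k : ℕ, ∃ I : Set Col, I.Countable ∧ ∀ n, ∀ α, α ∉ I → ∀ α', α' ∉ I →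
      ev (Φ.f (U k 1)) (n, α) = ev (Φ.f (U k 1)) (n, α') :=
    fun k => ev_row_countable _
  choose I1 hI1 hI1' using h1
  choose I2 hI2 hI2' using h2
  set I : Set Col := (⋃ k, ⋃ i, ⋃ j, I1 k i j) ∪ ⋃ k, I2 k with hI
  have hIc : I.Countable := by
    apply Set.Countable.union
    · exact Set.countable_iUnion fun k => Set.countable_iUnion fun i =>
        Set.countable_iUnion fun j => hI1 k i j
    · exact Set.countable_iUnion fun k => hI2 k
  have hsub1 : ∀ k i j, ∀ α, α ∉ I → α ∉ I1 k i j := by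
    intro k i j α hα h
    apply hα
    left
    exact Set.mem_iUnion.mpr ⟨k, Set.mem_iUnion.mpr ⟨i, Set.mem_iUnion.mpr ⟨j, h⟩⟩⟩
  have hsub2 : ∀ k, ∀ α, α ∉ I → α ∉ I2 k := by
    intro k α hα h
    apply hα
    right
    exact Set.mem_iUnion.mpr ⟨k, h⟩
  -- row index
  have hrow : ∀ n, ∀ α, α ∉ I → ∀ α', α' ∉ I → (Φ.χ (n, α)).1 = (Φ.χ (n, α')).1 := by
    intro n α hα α' hα'
    have h := hI2' (Φ.χ (n, α)).1 n α (hsub2 _ α hα) α' (hsub2 _ α' hα')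
    rw [Φ.f_U, Φ.f_U, if_pos rfl, Φ.θ_one, Φ.θ_one] at h
    by_contra hne
    rw [if_neg (fun h' => hne h'.symm)] at h
    exact one_ne_zero h
  have hunc : ∃ α, α ∉ I := by
    by_contra hcon
    push Not at hcon
    have : (Set.univ : Set Col).Countable := hIc.mono fun α _ => hcon α
    have h3 : Countable Col := Set.countable_univ_iff.mp this
    have h4 : Countable ℝ := (Prod.mk_right_injective (fun _ : ℕ => (0 : Fin 3))).countable
    exact not_countable h4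
  obtain ⟨α0, hα0⟩ := hunc
  refine ⟨I, fun n => (Φ.χ (n, α0)).1, hIc, fun n α hα => hrow n α hα α0 hα0, ?_⟩
  intro n α hα α' hα' m
  have hsingle : ∀ i j, Φ.θ (n, α) (Matrix.single i j 1) = Φ.θ (n, α') (Matrix.single i j 1) := by
    intro i j
    have h := hI1' (Φ.χ (n, α)).1 i j n α (hsub1 _ _ _ α hα) α' (hsub1 _ _ _ α' hα')
    rw [Φ.f_U, Φ.f_U, if_pos rfl, if_pos (hrow n α' hα' α hα)] at h
    exact h
  have hlin : ∀ y, ∃ L : B →ₗ[ℂ] B, ∀ m, L m = Φ.θ y m := fun y =>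
    ⟨{ toFun := Φ.θ y, map_add' := Φ.θ_add y, map_smul' := Φ.θ_smul y }, fun m => rfl⟩
  obtain ⟨L, hL⟩ := hlin (n, α)
  obtain ⟨L', hL'⟩ := hlin (n, α')
  have hLL : L = L' := by
    apply Matrix.ext_linearMap
    intro i j
    ext z
    simp only [LinearMap.comp_apply]
    have e : (Matrix.singleLinearMap ℂ i j) 1 = (Matrix.single i j 1 : B) := rfl
    rw [e, hL, hL', hsingle]
  rw [← hL, ← hL', hLL]

end Pool.Agent.Lib.MP_5c3535_an
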