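import Pool.Agent.Lib.MP_5c3535_an.Linear

/-! The unitization of the algebra `AT`: a unital example. -/

open scoped ENNReal Matrix.Norms.L2Operator
open Filter Topology

noncomputable section

namespace Pool.Agent.Lib.MP_5c3535_an

/-- The unital algebra. -/
abbrev A1 : Type := Unitization ℂ AT

lemma ev_sub (a b : AT) (x : X) : ev (a - b) x = ev a x - ev b x := by
  have h : a - b = a + (-1 : ℂ) • b := by simp [sub_eq_add_neg]
  rw [h, ev_add, ev_smul]
  simp [sub_eq_add_neg]

/-- Evaluation as a *-homomorphism. -/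
def evHom (x : X) : AT →⋆ₙₐ[ℂ] B where
  toFun a := ev a x
  map_smul' z a := ev_smul z a x
  map_zero' := ev_zero x
  map_add' a b := ev_add a b x
  map_mul' a b := ev_mul a b x
  map_star' a := ev_star a x

/-- Evaluation on the unitization. -/
def evU (x : X) : A1 →⋆ₐ[ℂ] B := Unitization.starLift (evHom x)

lemma evU_apply (x : X) (a : A1) : evU x a = algebraMap ℂ B a.fst + ev a.snd x := by
  rfl

lemma evU_sep (a : A1) (h : ∀ x, evU x a = 0) : a = 0 := by
  have hz : a.fst = 0 := by
    by_contra hne
    have hpos : 0 < ‖a.fst‖ := norm_pos_iff.mpr hne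
    obtain ⟨F, G, h1, -, -⟩ := ev_approx a.snd (half_pos hpos)
    obtain ⟨n, hn⟩ := Infinite.exists_notMem_finset F
    obtain ⟨α, hα⟩ := Infinite.exists_notMem_finset G
    have h2 := h (n, α)
    rw [evU_apply] at h2
    have h3 : ev a.snd (n, α) = - algebraMap ℂ B a.fst := by
      rw [eq_neg_iff_add_eq_zero, add_comm]; exact h2
    have h4 := h1 n hn α hα
    rw [h3, norm_neg, Algebra.algebraMap_eq_smul_one, norm_smul, norm_one_B, mul_one] at h4
    linarith
  apply Unitization.ext
  · simpa using hz
  · rw [Unitization.snd_zero]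
    apply ev_ext
    intro x
    have h2 := h x
    rw [evU_apply, hz, map_zero, zero_add] at h2
    rw [h2, ev_zero]

lemma U_mul (k : ℕ) (m m' : B) : U k m * U k m' = U k (m * m') := by
  apply ev_ext
  intro y
  rw [ev_mul, ev_U, ev_U, ev_U]
  split_ifs <;> simp

lemma U_add (k : ℕ) (m m' : B) : U k m + U k m' = U k (m + m') := by
  apply ev_ext
  intro y
  rw [ev_add, ev_U, ev_U, ev_U]
  split_ifs <;> simp

lemma U_zero (k : ℕ) : U k 0 = 0 := by
  apply ev_ext
  intro y
  rw [ev_U, ev_zero]
  split_ifs <;> simp

lemma Ad'_mul (c : Fin 3) (m m' : B) : Ad' c (m * m') = Ad' c m * Ad' c m' := by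
  unfold Ad'
  calc star (u c) * (m * m') * u c = star (u c) * m * 1 * m' * u c := by simp [mul_assoc]
    _ = star (u c) * m * (u c * star (u c)) * m' * u c := by rw [u_mul_star]
    _ = _ := by simp only [mul_assoc]

lemma Ad'_add (c : Fin 3) (m m' : B) : Ad' c (m + m') = Ad' c m + Ad' c m' := by
  simp [Ad', mul_add, add_mul]

lemma V_mul (α : Col) (m m' : B) : V α m * V α m' = V α (m * m') := by
  classical
  apply ev_ext
  intro y
  rw [ev_mul, ev_V, ev_V, ev_V]
  split_ifs
  · rw [Ad'_mul]
  · simp

lemma V_add (α : Col) (m m' : B) : V α m + V α m' = V α (m + m') := by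
  classical
  apply ev_ext
  intro y
  rw [ev_add, ev_V, ev_V, ev_V]
  split_ifs
  · rw [Ad'_add]
  · simp

lemma V_zero (α : Col) : V α 0 = 0 := by
  classical
  apply ev_ext
  intro y
  rw [ev_V, ev_zero]
  split_ifs
  · rw [Ad'_zero]
  · rfl

/-- A multiplicative additive map from the matrix algebra to the scalars kills the unit. -/
lemma kill_one (g : B → ℂ) (hadd : ∀ m m', g (m + m') = g m + g m')
    (hmul : ∀ m m', g (m * m') = g m * g m') (h0 : g 0 = 0) : g 1 = 0 := by
  have hsq : ∀ m : B, m * m = 0 → g m = 0 := by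
    intro m hm
    have h := hmul m m
    rw [hm, h0] at h
    exact mul_self_eq_zero.mp h.symm
  have h01 : g (Matrix.single 0 1 1) = 0 := hsq _ (by
    ext i j
    fin_cases i <;> fin_cases j <;> simp [Matrix.mul_apply, Matrix.single_apply])
  have h20 : g (Matrix.single 2 0 1) = 0 := hsq _ (by
    ext i j
    fin_cases i <;> fin_cases j <;> simp [Matrix.mul_apply, Matrix.single_apply])
  have e : (1 : B) = Matrix.single 0 1 1 * Matrix.single 1 0 1 +
      Matrix.single 1 0 1 * Matrix.single 0 1 1 +
      Matrix.single 2 0 1 * Matrix.single 0 2 1 := by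
    rw [Matrix.single_mul_single_same, Matrix.single_mul_single_same,
      Matrix.single_mul_single_same, mul_one]
    ext i j
    fin_cases i <;> fin_cases j <;> simp [Matrix.single_apply, Matrix.one_apply]
  rw [e, hadd, hadd, hmul, hmul, hmul, h01, h20]
  ring

/-- A character of `AT` kills every element which vanishes off finitely many rows and columns. -/
lemma char_zero (φ : AT → ℂ) (hadd : ∀ a b, φ (a + b) = φ a + φ b)
    (hmul : ∀ a b, φ (a * b) = φ a * φ b) (F : Finset ℕ) (G : Finset Col) (a : AT)
    (ha : ∀ n, n ∉ F → ∀ α, α ∉ G → ev a (n, α) = 0) : φ a = 0 := by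
  classical
  have h0 : φ 0 = 0 := by
    have h := hadd 0 0
    rw [add_zero] at h
    simpa using h
  have hU : ∀ k, φ (U k 1) = 0 := fun k =>
    kill_one (fun m => φ (U k m)) (fun m m' => by rw [← U_add, hadd])
      (fun m m' => by rw [← U_mul, hmul]) (by rw [U_zero, h0])
  have hV : ∀ α, φ (V α 1) = 0 := fun α =>
    kill_one (fun m => φ (V α m)) (fun m m' => by rw [← V_add, hadd])
      (fun m m' => by rw [← V_mul, hmul]) (by rw [V_zero, h0])
  have hred : ∀ p b : AT, φ p = 0 → φ b = φ (b - p * b) := by
    intro p b hp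
    have h : b = (b - p * b) + p * b := by abel
    conv_lhs => rw [h]
    rw [hadd, hmul, hp, zero_mul, add_zero]
  have step1 : ∀ (G : Finset Col) (a : AT), (∀ n, ∀ α, α ∉ G → ev a (n, α) = 0) → φ a = 0 := by
    intro G
    induction G using Finset.induction_on with
    | empty =>
      intro a ha
      have : a = 0 := by
        apply ev_ext
        rintro ⟨n, α⟩
        rw [ha n α (Finset.notMem_empty α), ev_zero]
      rw [this, h0]
    | insert β G hβ ih =>
      intro a ha
      rw [hred (V β 1) a (hV β)]
      apply ih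
      intro n α hα
      rw [ev_sub, ev_mul, ev_V]
      by_cases h : α = β
      · rw [if_pos h, Ad'_one, one_mul, sub_self]
      · rw [if_neg h, zero_mul, sub_zero]
        exact ha n α (by simp [h, hα])
  revert a
  induction F using Finset.induction_on with
  | empty =>
    intro a ha
    exact step1 G a fun n α hα => ha n (Finset.notMem_empty n) α hα
  | insert k F hk ih =>
    intro a ha
    rw [hred (U k 1) a (hU k)]
    apply ih
    intro n hn α hα
    rw [ev_sub, ev_mul, ev_U]
    by_cases h : n = k
    · rw [if_pos h, one_mul, sub_self]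
    · rw [if_neg h, zero_mul, sub_zero]
      exact ha n (by simp [h, hn]) α hα

/-- Every character of the unitization vanishes on `AT`. -/
lemma char_inr (φ : A1 →ₐ[ℂ] ℂ) (a : AT) : φ (a : A1) = 0 := by
  have hb : ∀ F G, ∀ b ∈ SFG F G, φ ((b : AT) : A1) = 0 := by
    intro F G b hb
    refine char_zero (fun c => φ (c : A1)) ?_ ?_ F G b ?_
    · intro c c'
      rw [Unitization.inr_add, map_add]
    · intro c c'
      rw [Unitization.inr_mul, map_mul]
    · exact hb.1
  have hn : ∀ ε : ℝ, 0 < ε → ‖φ (a : A1)‖ ≤ ε := by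
    intro ε hε
    have hd := SFG_dense a
    rw [Metric.mem_closure_iff] at hd
    obtain ⟨b, hbm, hab⟩ := hd ε hε
    simp only [Set.mem_iUnion] at hbm
    obtain ⟨s, ⟨⟨F, G⟩, rfl⟩, hbs⟩ := hbm
    have h1 : φ (a : A1) = φ ((a - b : AT) : A1) := by
      rw [Unitization.inr_sub, map_sub, hb F G b hbs, sub_zero]
    rw [h1]
    have h2 := AlgHom.norm_apply_le_self φ ((a - b : AT) : A1)
    rw [Unitization.norm_inr, ← dist_eq_norm] at h2
    linarith
  exact norm_le_zero_iff.mp (le_of_forall_pos_le_add fun ε hε => by simpa using hn ε hε)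

/-- The unitization has no complex linear anti-automorphism. -/
theorem A1_no_anti (f : A1 → A1) (hadd : ∀ a b, f (a + b) = f a + f b)
    (hsmul : ∀ (z : ℂ) a, f (z • a) = z • f a) (hmul : ∀ a b, f (a * b) = f b * f a)
    (hbij : Function.Bijective f) : False := by
  have hone : f 1 = 1 := by
    obtain ⟨b, hb⟩ := hbij.2 1
    have h := hmul b 1
    rw [mul_one, hb, mul_one] at h
    exact h.symm
  have hzero : f 0 = 0 := by
    have h := hsmul 0 0
    simpa using h
  let φ : A1 →ₐ[ℂ] ℂ := AlgHom.ofLinearMap
    { toFun := fun a => (f a).fst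
      map_add' := fun a b => by rw [hadd, Unitization.fst_add]
      map_smul' := fun z a => by rw [hsmul, Unitization.fst_smul]; rfl }
    (by
      show (f 1).fst = 1
      rw [hone, Unitization.fst_one])
    (by
      intro a b
      show (f (a * b)).fst = (f a).fst * (f b).fst
      rw [hmul, Unitization.fst_mul, mul_comm])
  have hφ : ∀ a : AT, (f (a : A1)).fst = 0 := fun a => char_inr φ a
  have hform : ∀ a : AT, f (a : A1) = (((f (a : A1)).snd : AT) : A1) := by
    intro a
    apply Unitization.ext
    · rw [hφ, Unitization.fst_inr]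
    · rw [Unitization.snd_inr]
  refine no_antiL
    { f := fun a => (f (a : A1)).snd
      map_add := ?_
      map_mul := ?_
      map_smul := ?_
      inj := ?_
      surj := ?_ }
  · intro a b
    rw [Unitization.inr_add, hadd, Unitization.snd_add]
  · intro a b
    have h : f ((a * b : AT) : A1) =
        (((f (b : A1)).snd * (f (a : A1)).snd : AT) : A1) := by
      rw [Unitization.inr_mul, hmul, Unitization.inr_mul, ← hform a, ← hform b]
    rw [h, Unitization.snd_inr]
  · intro z a
    rw [Unitization.inr_smul, hsmul, Unitization.snd_smul]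
  · intro a b h
    have h1 : f (a : A1) = f (b : A1) := by
      rw [hform a, hform b]
      exact congrArg _ h
    exact Unitization.inr_injective (hbij.1 h1)
  · intro b
    obtain ⟨x, hx⟩ := hbij.2 ((b : AT) : A1)
    have hx2 : x = x.fst • (1 : A1) + ((x.snd : AT) : A1) := by
      apply Unitization.ext
      · simp
      · simp
    have h1 : x.fst = 0 := by
      have h2 : (f x).fst = 0 := by rw [hx, Unitization.fst_inr]
      rw [hx2, hadd, hsmul, hone, Unitization.fst_add, hφ, Unitization.fst_smul,
        Unitization.fst_one, add_zero] at h2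
      simpa using h2
    refine ⟨x.snd, ?_⟩
    have h2 : x = ((x.snd : AT) : A1) := by
      rw [h1, zero_smul, zero_add] at hx2
      exact hx2
    show (f ((x.snd : AT) : A1)).snd = b
    rw [← h2, hx, Unitization.snd_inr]

/-- The finite-dimensional subalgebras of the unitization. -/
def TFG (F : Finset ℕ) (G : Finset Col) : StarSubalgebra ℂ A1 where
  carrier := {a | a.snd ∈ SFG F G}
  add_mem' := by
    intro a b ha hb
    simp only [Set.mem_ofPred_eq, Unitization.snd_add] at *
    exact add_mem ha hb
  mul_mem' := by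
    intro a b ha hb
    simp only [Set.mem_ofPred_eq, Unitization.snd_mul] at *
    exact add_mem (add_mem (SMulMemClass.smul_mem _ hb) (SMulMemClass.smul_mem _ ha))
      (mul_mem ha hb)
  algebraMap_mem' := by
    intro z
    show (algebraMap ℂ A1 z).snd ∈ SFG F G
    have : (algebraMap ℂ A1 z).snd = 0 := by
      rw [Unitization.algebraMap_eq_inl]
      exact Unitization.snd_inl _ _
    rw [this]
    exact zero_mem _
  star_mem' := by
    intro a ha
    simp only [Set.mem_ofPred_eq, Unitization.snd_star] at *
    exact star_mem ha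

lemma mem_TFG {F : Finset ℕ} {G : Finset Col} {a : A1} : a ∈ TFG F G ↔ a.snd ∈ SFG F G := Iff.rfl

lemma TFG_mono {F F' : Finset ℕ} {G G' : Finset Col} (hF : F ⊆ F') (hG : G ⊆ G') :
    TFG F G ≤ TFG F' G' := fun _ ha => SFG_mono hF hG ha

lemma TFG_fd (F : Finset ℕ) (G : Finset Col) : FiniteDimensional ℂ (TFG F G) := by
  have := SFG_fd F G
  let T : (TFG F G) →ₗ[ℂ] ℂ × (Submodule.span ℂ (SFG F G : Set AT)) :=
    { toFun := fun a => ((a : A1).fst, ⟨(a : A1).snd, Submodule.subset_span a.2⟩)
      map_add' := fun a b => rfl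
      map_smul' := fun z a => rfl }
  apply FiniteDimensional.of_injective T
  intro a b h
  have h1 : (T a).1 = (T b).1 := by rw [h]
  have h2 : ((T a).2 : AT) = ((T b).2 : AT) := by rw [h]
  exact Subtype.ext (Unitization.ext h1 h2)

lemma TFG_dense : Dense (⋃ s ∈ Set.range (fun p : Finset ℕ × Finset Col => TFG p.1 p.2),
    (s : Set A1)) := by
  intro a
  rw [Metric.mem_closure_iff]
  intro ε hε
  have hd := SFG_dense a.snd
  rw [Metric.mem_closure_iff] at hd
  obtain ⟨b, hbm, hab⟩ := hd ε hε
  simp only [Set.mem_iUnion] at hbm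
  obtain ⟨s, ⟨⟨F, G⟩, rfl⟩, hbs⟩ := hbm
  refine ⟨Unitization.inl a.fst + ((b : AT) : A1), ?_, ?_⟩
  · simp only [Set.mem_iUnion]
    refine ⟨TFG F G, ⟨(F, G), rfl⟩, ?_⟩
    show (Unitization.inl a.fst + ((b : AT) : A1)).snd ∈ SFG F G
    rw [Unitization.snd_add, Unitization.snd_inl, Unitization.snd_inr, zero_add]
    exact hbs
  · have h : a - (Unitization.inl a.fst + ((b : AT) : A1)) = ((a.snd - b : AT) : A1) := by
      calc a - (Unitization.inl a.fst + ((b : AT) : A1))
          = (Unitization.inl a.fst + ((a.snd : AT) : A1)) -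
            (Unitization.inl a.fst + ((b : AT) : A1)) := by
            rw [Unitization.inl_fst_add_inr_snd_eq]
        _ = ((a.snd - b : AT) : A1) := by
            rw [Unitization.inr_sub]
            abel
    rw [dist_eq_norm, h, Unitization.norm_inr, ← dist_eq_norm]
    exact hab

lemma A1_nonsep : ¬ ∃ D : Set A1, D.Countable ∧ Dense D := by
  rintro ⟨D, hD, hd⟩
  have : TopologicalSpace.SeparableSpace A1 := ⟨D, hD, hd⟩
  have : SecondCountableTopology A1 := UniformSpace.secondCountable_of_separable A1
  have hi : Isometry (Unitization.inr : AT → A1) := Unitization.isometry_inr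
  have : SecondCountableTopology AT := hi.isUniformInducing.isInducing.secondCountableTopology
  exact AT_nonsep inferInstance

end Pool.Agent.Lib.MP_5c3535_an
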